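import Mathlib
import Pool.Agent.H719Z.FKW.Mean

set_option autoImplicit false
set_option maxHeartbeats 400000

namespace Pool.Agent.H719Z.EG
open Pool.Agent.H719Z.FKW Real Filter Topology

theorem circ (Ψ : ℝ × ℝ → ℝ) (hΨ : Continuous Ψ) :
    Bd (fun θ => Ψ (cos θ, sin θ)) ∧ ∀ ε : ℝ, 0 < ε → ∃ δ : ℝ, 0 < δ ∧ ∀ a b : ℝ, |a - b| < δ →
      |Ψ (cos a, sin a) - Ψ (cos b, sin b)| < ε := by
  have hK : IsCompact (Set.Icc (-1 : ℝ) 1 ×ˢ Set.Icc (-1 : ℝ) 1) :=
    isCompact_Icc.prod isCompact_Icc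
  have hm : ∀ θ, (cos θ, sin θ) ∈ Set.Icc (-1 : ℝ) 1 ×ˢ Set.Icc (-1 : ℝ) 1 :=
    fun θ => ⟨cos_mem_Icc θ, sin_mem_Icc θ⟩
  constructor
  · obtain ⟨C, hC⟩ := hK.exists_bound_of_continuousOn hΨ.continuousOn
    exact ⟨C, fun θ => hC _ (hm θ)⟩
  · intro ε hε
    obtain ⟨δ, hδ, h⟩ := Metric.uniformContinuousOn_iff.1
      (hK.uniformContinuousOn_of_continuous hΨ.continuousOn) ε hε
    refine ⟨δ, hδ, fun a b hab => h _ (hm a) _ (hm b) ?_⟩
    rw [Prod.dist_eq, max_lt_iff]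
    exact ⟨(abs_cos_sub_cos_le a b).trans_lt hab, (abs_sin_sub_sin_le a b).trans_lt hab⟩

theorem cos_tay (a b : ℝ) (hb : |b| ≤ 1) : |cos (a + b) - cos a - b * (-sin a)| ≤ b ^ 2 := by
  have h1 := abs_sub_sin_le b
  have h2 := one_sub_sq_div_two_le_cos (x := b)
  have h3 := cos_le_one b
  have h4 : |b| ^ 3 ≤ b ^ 2 := by
    rw [← sq_abs b]
    nlinarith [abs_nonneg b, sq_nonneg |b|]
  have e : cos (a + b) - cos a - b * (-sin a) = cos a * (cos b - 1) + sin a * (b - sin b) := by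
    rw [cos_add]
    ring
  rw [e]
  refine (abs_add_le _ _).trans ?_
  rw [abs_mul, abs_mul, abs_of_nonpos (by linarith : cos b - 1 ≤ 0)]
  have h5 := mul_le_of_le_one_left (by linarith : 0 ≤ -(cos b - 1)) (abs_cos_le_one a)
  have h6 := mul_le_of_le_one_left (abs_nonneg (b - sin b)) (abs_sin_le_one a)
  nlinarith [sq_nonneg b]

theorem sin_tay (a b : ℝ) (hb : |b| ≤ 1) : |sin (a + b) - sin a - b * cos a| ≤ b ^ 2 := by
  have h := cos_tay (a - π / 2) b hb
  rwa [sub_add_eq_add_sub, cos_sub_pi_div_two, cos_sub_pi_div_two, sin_sub_pi_div_two,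
    neg_neg] at h

theorem split_exp (y : ℝ) (n : ℕ) :
    ∑ m ∈ Finset.range (2 * n), ((y : ℂ) * Complex.I) ^ m / (m.factorial : ℂ) =
      ((∑ k ∈ Finset.range n, (-1) ^ k * y ^ (2 * k) / ((2 * k).factorial : ℝ) : ℝ) : ℂ) +
      ((∑ k ∈ Finset.range n, (-1) ^ k * y ^ (2 * k + 1) / ((2 * k + 1).factorial : ℝ) : ℝ) : ℂ) *
        Complex.I := by
  induction n with
  | zero => simp
  | succ n ih =>
    rw [show 2 * (n + 1) = 2 * n + 1 + 1 by ring, Finset.sum_range_succ, Finset.sum_range_succ, ih,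
      Finset.sum_range_succ, Finset.sum_range_succ]
    have h : Complex.I ^ (2 * n) = (-1) ^ n := by rw [pow_mul, Complex.I_sq]
    push_cast
    rw [mul_pow, mul_pow, pow_succ Complex.I, h]
    ring

theorem series (y : ℝ) (hy : |y| ≤ 9) :
    |cos y - ∑ k ∈ Finset.range 20, (-1) ^ k * y ^ (2 * k) / ((2 * k).factorial : ℝ)|
      ≤ 1 / 10 ^ 6 ∧
    |sin y - ∑ k ∈ Finset.range 20, (-1) ^ k * y ^ (2 * k + 1) / ((2 * k + 1).factorial : ℝ)|
      ≤ 1 / 10 ^ 6 := by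
  have hn : ‖(y : ℂ) * Complex.I‖ = |y| := by simp
  have h := Complex.exp_bound' (x := (y : ℂ) * Complex.I) (n := 2 * 20) (by
    rw [hn]
    norm_num
    linarith)
  rw [split_exp, hn] at h
  have h2 : |y| ^ (2 * 20) / ((2 * 20).factorial : ℝ) * 2 ≤ 1 / 10 ^ 6 := by
    calc _ ≤ 9 ^ (2 * 20) / ((2 * 20).factorial : ℝ) * 2 := by gcongr
      _ ≤ _ := by norm_num [Nat.factorial]
  have h3 := (Complex.abs_re_le_norm _).trans (h.trans h2)
  have h4 := (Complex.abs_im_le_norm _).trans (h.trans h2)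
  simp only [Complex.sub_re, Complex.exp_ofReal_mul_I_re, Complex.add_re, Complex.ofReal_re,
    Complex.mul_re, Complex.I_re, mul_zero, Complex.ofReal_im, Complex.I_im, mul_one, sub_self,
    add_zero] at h3
  simp only [Complex.sub_im, Complex.exp_ofReal_mul_I_im, Complex.add_im, Complex.ofReal_re,
    Complex.mul_im, Complex.I_re, mul_zero, Complex.ofReal_im, Complex.I_im, mul_one,
    add_zero, zero_add] at h4
  exact ⟨h3, h4⟩

/-- truncated series of the first Bessel function -/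
def P0 (x : ℚ) : ℚ :=
  ∑ k ∈ Finset.range 20, (-1) ^ k * x ^ (2 * k) * (1 / (4 ^ k * (k.factorial : ℚ) ^ 2))

/-- truncated series of the second Bessel function -/
def P1 (x : ℚ) : ℚ :=
  ∑ k ∈ Finset.range 20, (-1) ^ k * x ^ (2 * k + 1) *
    ((2 * k + 2) * (1 / (4 ^ (k + 1) * ((k + 1).factorial : ℚ) ^ 2)))

theorem grid : ∀ i ∈ Finset.range 541, -403 / 1000 ≤ P0 (i / 60) ∧
    (282 ≤ i → -273 / 1000 ≤ P0 (i / 60)) ∧ (i ≤ 141 → 17 / 1000 ≤ P0 (i / 60)) := by
  decide +kernel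

theorem at_nine : |P0 9| ≤ 1 / 10 ∧ |P1 9| ≤ 1 / 4 := by
  decide +kernel

section
variable (M : Mean ℝ) (hM : ∀ (f : ℝ → ℝ) (a : ℝ), Bd f → M.M (fun x => f (x + a)) = M.M f)

include hM in
theorem deriv_zero (Φ Ψ : ℝ × ℝ → ℝ) (hΦ : Continuous Φ) (hΨ : Continuous Ψ)
    (h : ∀ θ, HasDerivAt (fun θ => Φ (cos θ, sin θ)) (Ψ (cos θ, sin θ)) θ) :
    M.M (fun θ => Ψ (cos θ, sin θ)) = 0 := by
  obtain ⟨b1, -⟩ := circ Φ hΦ
  obtain ⟨b2, u2⟩ := circ Ψ hΨ
  rw [← abs_nonpos_iff]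
  refine le_of_forall_pos_le_add fun ε hε => ?_
  obtain ⟨δ, hδ, hu⟩ := u2 ε hε
  have b3 := b1.comp (fun θ => θ + δ)
  have h1 := M.smul (1 / δ) _ (b3.sub b1)
  rw [M.sub b3 b1, hM _ δ b1, sub_self, mul_zero] at h1
  have h2 := M.sub b2 ((b3.sub b1).cmul (1 / δ))
  rw [h1, sub_zero] at h2
  rw [← h2, zero_add]
  apply M.abs_le
  intro θ
  obtain ⟨c, hc, hc'⟩ := exists_hasDerivAt_eq_slope (fun θ => Φ (cos θ, sin θ))
    (fun θ => Ψ (cos θ, sin θ)) (by linarith : θ < θ + δ)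
    (fun x _ => (h x).continuousAt.continuousWithinAt) (fun x _ => h x)
  rw [add_sub_cancel_left, div_eq_inv_mul, ← one_div] at hc'
  rw [← hc']
  apply (hu θ c _).le
  rw [abs_lt]
  constructor <;> linarith [hc.1, hc.2]

theorem mean_deriv (g : ℝ → ℝ → ℝ) (g' : ℝ → ℝ) (t : ℝ) (hg : ∀ s, Bd (g s)) (hg' : Bd g')
    (h : ∀ s θ, |s| ≤ 1 → |g (t + s) θ - g t θ - s * g' θ| ≤ s ^ 2) :
    HasDerivAt (fun s => M.M (g s)) (M.M g') t := by
  rw [hasDerivAt_iff_isLittleO_nhds_zero]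
  refine Asymptotics.IsBigO.trans_isLittleO ?_ (Asymptotics.isLittleO_pow_id (n := 2) one_lt_two)
  apply Asymptotics.IsBigO.of_bound'
  filter_upwards [Icc_mem_nhds (by norm_num : (-1 : ℝ) < 0) zero_lt_one] with s hs
  rw [smul_eq_mul, ← M.smul _ _ hg', ← M.sub (hg _) (hg _),
    ← M.sub ((hg _).sub (hg _)) (hg'.cmul _), Real.norm_eq_abs, Real.norm_eq_abs,
    abs_of_nonneg (sq_nonneg s)]
  exact M.abs_le fun θ => h s θ (abs_le.2 hs)

theorem bd_cos : Bd cos := ⟨1, abs_cos_le_one⟩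

theorem bd_sin : Bd sin := ⟨1, abs_sin_le_one⟩

theorem bd_cos_pow (k : ℕ) : Bd (fun θ => cos θ ^ k) :=
  ⟨1, fun θ => by rw [abs_pow]; exact pow_le_one₀ (abs_nonneg _) (abs_cos_le_one θ)⟩

include hM in
theorem moment (k : ℕ) : M.M (fun θ => cos θ ^ (2 * k)) =
    (2 * k).factorial * (1 / (4 ^ k * (k.factorial : ℝ) ^ 2)) := by
  induction k with
  | zero => simp [M.one]
  | succ k ih =>
    have h := deriv_zero M hM (fun p => p.2 * p.1 ^ (2 * k + 1))
      (fun p => (2 * k + 2) * p.1 ^ (2 * (k + 1)) - (2 * k + 1) * p.1 ^ (2 * k))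
      (by fun_prop) (by fun_prop) (fun θ => by
        refine ((hasDerivAt_sin θ).mul ((hasDerivAt_cos θ).pow (2 * k + 1))).congr_deriv ?_
        simp only [Pi.pow_apply, Nat.add_sub_cancel]
        push_cast
        linear_combination -(2 * k + 1) * cos θ ^ (2 * k) * cos_sq_add_sin_sq θ)
    simp only at h
    rw [M.sub ((bd_cos_pow _).cmul _) ((bd_cos_pow _).cmul _), M.smul _ _ (bd_cos_pow _),
      M.smul _ _ (bd_cos_pow _), ih] at h
    have h2 : (2 * (k : ℝ) + 2) ≠ 0 := by positivity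
    apply mul_left_cancel₀ h2
    rw [sub_eq_zero.1 h, show 2 * (k + 1) = 2 * k + 1 + 1 by ring, Nat.factorial_succ,
      Nat.factorial_succ, Nat.factorial_succ k]
    push_cast
    field_simp
    ring

/-- the first Bessel function -/
noncomputable def J0 (t : ℝ) : ℝ := M.M (fun θ => cos (t * cos θ))

/-- the second Bessel function -/
noncomputable def J1 (t : ℝ) : ℝ := M.M (fun θ => cos θ * sin (t * cos θ))

include hM in
theorem J0_approx (x : ℚ) (hx : |(x : ℝ)| ≤ 9) : |J0 M x - P0 x| ≤ 1 / 10 ^ 6 := by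
  have e : ((P0 x : ℚ) : ℝ) = M.M (fun θ => ∑ k ∈ Finset.range 20,
      ((-1) ^ k * (x : ℝ) ^ (2 * k) / ((2 * k).factorial : ℝ)) * cos θ ^ (2 * k)) := by
    rw [M.sum _ (fun k => (bd_cos_pow _).cmul _)]
    unfold P0
    push_cast
    refine Finset.sum_congr rfl fun k _ => ?_
    rw [M.smul _ _ (bd_cos_pow _), moment M hM]
    field_simp
  rw [e, J0, ← M.sub (bd_cos.comp _) (Bd.sum _ fun k => (bd_cos_pow _).cmul _)]
  apply M.abs_le
  intro θ
  have h := (series (x * cos θ) (by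
    rw [abs_mul]
    exact (mul_le_of_le_one_right (abs_nonneg _) (abs_cos_le_one θ)).trans hx)).1
  convert h using 3
  refine Finset.sum_congr rfl fun k _ => ?_
  rw [mul_pow]
  ring

include hM in
theorem J1_approx (x : ℚ) (hx : |(x : ℝ)| ≤ 9) : |J1 M x - P1 x| ≤ 1 / 10 ^ 6 := by
  have e : ((P1 x : ℚ) : ℝ) = M.M (fun θ => ∑ k ∈ Finset.range 20,
      ((-1) ^ k * (x : ℝ) ^ (2 * k + 1) / ((2 * k + 1).factorial : ℝ)) *
        cos θ ^ (2 * (k + 1))) := by
    rw [M.sum _ (fun k => (bd_cos_pow _).cmul _)]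
    unfold P1
    push_cast
    refine Finset.sum_congr rfl fun k _ => ?_
    rw [M.smul _ _ (bd_cos_pow _), moment M hM, show 2 * (k + 1) = 2 * k + 1 + 1 by ring,
      Nat.factorial_succ (2 * k + 1)]
    push_cast
    field_simp
    ring
  rw [e, J1, ← M.sub (bd_cos.mul (bd_sin.comp _)) (Bd.sum _ fun k => (bd_cos_pow _).cmul _)]
  apply M.abs_le
  intro θ
  have h := (series (x * cos θ) (by
    rw [abs_mul]
    exact (mul_le_of_le_one_right (abs_nonneg _) (abs_cos_le_one θ)).trans hx)).2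
  have e2 : cos θ * sin (x * cos θ) - ∑ k ∈ Finset.range 20,
      ((-1) ^ k * (x : ℝ) ^ (2 * k + 1) / ((2 * k + 1).factorial : ℝ)) * cos θ ^ (2 * (k + 1)) =
      cos θ * (sin (x * cos θ) - ∑ k ∈ Finset.range 20,
        (-1) ^ k * (x * cos θ) ^ (2 * k + 1) / ((2 * k + 1).factorial : ℝ)) := by
    rw [mul_sub, Finset.mul_sum]
    congr 1
    refine Finset.sum_congr rfl fun k _ => ?_
    rw [mul_pow]
    ring
  rw [e2, abs_mul]
  exact (mul_le_of_le_one_left (abs_nonneg _) (abs_cos_le_one θ)).trans h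

theorem J0_lip (s t : ℝ) : |J0 M s - J0 M t| ≤ |s - t| := by
  rw [J0, J0, ← M.sub (bd_cos.comp _) (bd_cos.comp _)]
  apply M.abs_le
  intro θ
  refine (abs_cos_sub_cos_le _ _).trans ?_
  rw [← sub_mul, abs_mul]
  exact mul_le_of_le_one_right (abs_nonneg _) (abs_cos_le_one θ)

include hM in
theorem sonin : AntitoneOn (fun t => J0 M t ^ 2 + J1 M t ^ 2) (Set.Ici 0) := by
  have hsc : ∀ s θ : ℝ, |s| ≤ 1 → |s * cos θ| ≤ 1 ∧ (s * cos θ) ^ 2 ≤ s ^ 2 := by
    intro s θ hs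
    have h : |s * cos θ| ≤ |s| := by
      rw [abs_mul]
      exact mul_le_of_le_one_right (abs_nonneg _) (abs_cos_le_one θ)
    exact ⟨h.trans hs, sq_le_sq.2 h⟩
  have b1 : ∀ t : ℝ, Bd (fun θ => cos θ * sin (t * cos θ)) :=
    fun t => bd_cos.mul (bd_sin.comp _)
  have b2 : ∀ t : ℝ, Bd (fun θ => cos θ ^ 2 * cos (t * cos θ)) :=
    fun t => (bd_cos_pow 2).mul (bd_cos.comp _)
  have d0 : ∀ t, HasDerivAt (J0 M) (-J1 M t) t := by
    intro t
    have h := mean_deriv M (fun s θ => cos (s * cos θ))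
      (fun θ => -1 * (cos θ * sin (t * cos θ))) t (fun s => bd_cos.comp _) ((b1 t).cmul _)
      (fun s θ hs => by
        have h1 := (cos_tay (t * cos θ) (s * cos θ) (hsc s θ hs).1).trans (hsc s θ hs).2
        refine le_trans (le_of_eq ?_) h1
        rw [add_mul]
        congr 1
        ring)
    rw [M.smul _ _ (b1 t), neg_one_mul] at h
    exact h
  have d1 : ∀ t, HasDerivAt (J1 M) (M.M (fun θ => cos θ ^ 2 * cos (t * cos θ))) t := by
    intro t
    exact mean_deriv M (fun s θ => cos θ * sin (s * cos θ)) _ t b1 (b2 t)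
      (fun s θ hs => by
        have h1 := (sin_tay (t * cos θ) (s * cos θ) (hsc s θ hs).1).trans (hsc s θ hs).2
        have e : cos θ * sin ((t + s) * cos θ) - cos θ * sin (t * cos θ) -
            s * (cos θ ^ 2 * cos (t * cos θ)) = cos θ * (sin (t * cos θ + s * cos θ) -
              sin (t * cos θ) - s * cos θ * cos (t * cos θ)) := by
          rw [add_mul]
          ring
        rw [e, abs_mul]
        exact (mul_le_of_le_one_left (abs_nonneg _) (abs_cos_le_one θ)).trans h1)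
  have ode : ∀ t, J1 M t = t * (J0 M t - M.M (fun θ => cos θ ^ 2 * cos (t * cos θ))) := by
    intro t
    have h := deriv_zero M hM (fun p => p.2 * sin (t * p.1))
      (fun p => p.1 * sin (t * p.1) - t * (cos (t * p.1) - p.1 ^ 2 * cos (t * p.1)))
      (by fun_prop) (by fun_prop) (fun θ => by
        refine ((hasDerivAt_sin θ).mul (((hasDerivAt_cos θ).const_mul t).sin)).congr_deriv ?_
        simp only
        linear_combination -t * cos (t * cos θ) * cos_sq_add_sin_sq θ)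
    simp only at h
    rw [M.sub (b1 t) (((bd_cos.comp _).sub (b2 t)).cmul _),
      M.smul _ _ ((bd_cos.comp _).sub (b2 t)), M.sub (bd_cos.comp _) (b2 t)] at h
    exact sub_eq_zero.1 h
  have d2 := fun t => ((d0 t).pow 2).add ((d1 t).pow 2)
  refine antitoneOn_of_hasDerivWithinAt_nonpos (convex_Ici 0)
    (fun t _ => (d2 t).continuousAt.continuousWithinAt) (fun t _ => (d2 t).hasDerivWithinAt) ?_
  intro t ht
  rw [interior_Ici] at ht
  have ht' : 0 < t := ht
  simp only [Nat.cast_ofNat, Nat.add_one_sub_one, pow_one]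
  have h1 := mul_nonneg ht'.le
    (sq_nonneg (J0 M t - M.M (fun θ => cos θ ^ 2 * cos (t * cos θ))))
  rw [ode t]
  nlinarith

include hM in
theorem bessel (t : ℝ) (ht : 0 ≤ t) : -42 / 100 ≤ J0 M t ∧ (47 / 10 ≤ t → -29 / 100 ≤ J0 M t) ∧
    (t ≤ 47 / 20 → 0 ≤ J0 M t) := by
  rcases le_total t 9 with h9 | h9
  · set i := ⌊60 * t⌋₊ with hi
    have h1 : (i : ℝ) ≤ 60 * t := Nat.floor_le (by positivity)
    have h2 : 60 * t < i + 1 := Nat.lt_floor_add_one _
    have h3 : i < 541 := by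
      have : (i : ℝ) < 541 := by linarith
      exact_mod_cast this
    obtain ⟨g1, g2, g3⟩ := grid i (Finset.mem_range.2 h3)
    have hi0 : (0 : ℝ) ≤ i := Nat.cast_nonneg i
    have h4 := J0_approx M hM (i / 60) (by
      push_cast
      rw [abs_le]
      constructor <;> linarith)
    have h5 := J0_lip M t ((i / 60 : ℚ) : ℝ)
    have h6 : |t - ((i / 60 : ℚ) : ℝ)| ≤ 1 / 60 := by
      push_cast
      rw [abs_le]
      constructor <;> linarith
    have h7 : ((P0 (i / 60) : ℚ) : ℝ) - 1 / 60 - 1 / 10 ^ 6 ≤ J0 M t := by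
      linarith [(abs_le.1 h4).1, (abs_le.1 (h5.trans h6)).1]
    refine ⟨?_, fun h => ?_, fun h => ?_⟩
    · have : (-403 / 1000 : ℝ) ≤ (P0 (i / 60) : ℚ) := by exact_mod_cast g1
      linarith
    · have h8 : 282 ≤ i := Nat.le_floor (by push_cast; linarith)
      have : (-273 / 1000 : ℝ) ≤ (P0 (i / 60) : ℚ) := by exact_mod_cast g2 h8
      linarith
    · have h8 : i ≤ 141 := by
        have : (i : ℝ) ≤ 141 := by linarith
        exact_mod_cast this
      have := (Rat.cast_le (K := ℝ)).2 (g3 h8)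
      rw [Rat.cast_div, Rat.cast_ofNat, Rat.cast_ofNat] at this
      linarith
  · have h1 := sonin M hM (show (9 : ℝ) ∈ Set.Ici 0 by norm_num) ht h9
    have h2 := J0_approx M hM 9 (by norm_num)
    have h3 := J1_approx M hM 9 (by norm_num)
    have h4 := (Rat.cast_le (K := ℝ)).2 at_nine.1
    have h5 := (Rat.cast_le (K := ℝ)).2 at_nine.2
    rw [Rat.cast_abs, Rat.cast_div, Rat.cast_one, Rat.cast_ofNat] at h4 h5
    simp only [Rat.cast_ofNat] at h2 h3
    rw [abs_le] at h2 h3 h4 h5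
    have h6 : J0 M 9 ^ 2 ≤ (11 / 100) ^ 2 := sq_le_sq' (by linarith) (by linarith)
    have h7 : J1 M 9 ^ 2 ≤ (26 / 100) ^ 2 := sq_le_sq' (by linarith) (by linarith)
    have h8 : J0 M t ^ 2 ≤ (29 / 100) ^ 2 := by
      simp only at h1
      nlinarith [sq_nonneg (J1 M t)]
    have h10 := (abs_le_of_sq_le_sq' h8 (by norm_num)).1
    refine ⟨by linarith, fun _ => by linarith, fun h => by linarith⟩

end

end Pool.Agent.H719Z.EG
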