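import Mathlib
import Pool.Agent.H719Z.FKW.UDecay

set_option autoImplicit false
set_option maxHeartbeats 400000

namespace Pool.Agent.H719Z.EG
open Pool.Agent.H719Z.FKW

theorem rot_zero : rot 0 = 1 := by simp [rot]

theorem rot_ne (θ : ℝ) : rot θ ≠ 0 := Complex.exp_ne_zero _

theorem rot_pi : rot Real.pi = -1 := by
  unfold rot
  rw [mul_comm]
  exact Complex.exp_pi_mul_I

theorem rot_two_pi : rot (2 * Real.pi) = 1 := by
  rw [two_mul, rot_add, rot_pi]
  norm_num

theorem rot_cont : Continuous rot := by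
  unfold rot
  fun_prop

theorem rot_eq (θ : ℝ) : rot θ = (Real.cos θ : ℂ) + (Real.sin θ : ℂ) * Complex.I := by
  unfold rot
  rw [mul_comm, Complex.exp_mul_I]
  simp

theorem rot_nsmul (n : ℕ) (θ : ℝ) : rot (n * θ) = rot θ ^ n := by
  induction n with
  | zero => simp [rot_zero]
  | succ n ih =>
    push_cast
    rw [add_mul, one_mul, rot_add, ih, pow_succ]

theorem rot_int (k : ℤ) : rot (k * (2 * Real.pi)) = 1 := by
  unfold rot
  have := Complex.exp_int_mul_two_pi_mul_I k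
  rw [← this]
  congr 1
  push_cast
  ring

/-- an isometric action of the group of rigid motions -/
structure Rep (V : Type) [NormedAddCommGroup V] [InnerProductSpace ℝ V] where
  U : ℂ → ℝ → V →ₗ[ℝ] V
  norm_U : ∀ v θ X, ‖U v θ X‖ = ‖X‖
  comp : ∀ v θ w φ X, U v θ (U w φ X) = U (v + rot θ * w) (θ + φ) X
  one : ∀ X, U 0 0 X = X

variable {V : Type} [NormedAddCommGroup V] [InnerProductSpace ℝ V] (R : Rep V)

/-- continuous vectors -/
def Rep.Cts (X : V) : Prop :=
  ∀ ε : ℝ, 0 < ε → ∃ δ : ℝ, 0 < δ ∧ ∀ v θ, ‖v‖ ≤ δ → |θ| ≤ δ → ‖R.U v θ X - X‖ ≤ ε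

theorem Rep.Cts.sub {X Y : V} (hX : R.Cts X) (hY : R.Cts Y) : R.Cts (X - Y) := by
  intro ε hε
  obtain ⟨δ, hδ, h1⟩ := hX (ε / 2) (by positivity)
  obtain ⟨δ', hδ', h2⟩ := hY (ε / 2) (by positivity)
  refine ⟨min δ δ', lt_min hδ hδ', fun v θ hv hθ => ?_⟩
  have e : R.U v θ (X - Y) - (X - Y) = (R.U v θ X - X) - (R.U v θ Y - Y) := by
    rw [map_sub]
    abel
  rw [e]
  have h3 := h1 v θ (hv.trans (min_le_left _ _)) (hθ.trans (min_le_left _ _))
  have h4 := h2 v θ (hv.trans (min_le_right _ _)) (hθ.trans (min_le_right _ _))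
  linarith [norm_sub_le (R.U v θ X - X) (R.U v θ Y - Y)]

theorem Rep.Cts.smul {X : V} (hX : R.Cts X) {c : ℝ} (hc : c * c = 1) : R.Cts (c • X) := by
  intro ε hε
  obtain ⟨δ, hδ, h1⟩ := hX ε hε
  refine ⟨δ, hδ, fun v θ hv hθ => ?_⟩
  have hc' : ‖c‖ = 1 := by
    rcases mul_self_eq_one_iff.1 hc with h | h <;> simp [h]
  rw [map_smul, ← smul_sub, norm_smul, hc', one_mul]
  exact h1 v θ hv hθ

theorem Rep.trans_add (v w : ℂ) (X : V) : R.U v 0 (R.U w 0 X) = R.U (v + w) 0 X := by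
  rw [R.comp, rot_zero, one_mul, add_zero]

theorem Rep.fix_neg {X : V} {w : ℂ} (h : R.U w 0 X = X) : R.U (-w) 0 X = X := by
  conv_lhs => rw [← h]
  rw [R.trans_add, neg_add_cancel, R.one]

theorem Rep.fix_nsmul {X : V} {w : ℂ} (h : R.U w 0 X = X) (n : ℕ) : R.U (n * w) 0 X = X := by
  induction n with
  | zero => simpa using R.one X
  | succ n ih =>
    push_cast
    rw [add_mul, one_mul, ← R.trans_add, h, ih]

theorem Rep.mautner1 {X : V} (hX : R.Cts X) {w : ℂ} (h : R.U w 0 X = X) (t : ℝ) :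
    R.U (t * Complex.I * w) 0 X = X := by
  rw [← sub_eq_zero, ← norm_le_zero_iff]
  refine le_of_forall_pos_le_add fun ε hε => ?_
  obtain ⟨δ, hδ, h1⟩ := hX (ε / 2) (by positivity)
  obtain ⟨n, hn⟩ := exists_nat_gt (max (|t| + 1) (max (|t| / δ) (t ^ 2 * ‖w‖ / δ)))
  have hn1 : |t| + 1 < n := lt_of_le_of_lt (le_max_left _ _) hn
  have hn2 : |t| / δ < n := lt_of_le_of_lt ((le_max_left _ _).trans (le_max_right _ _)) hn
  have hn3 : t ^ 2 * ‖w‖ / δ < n :=
    lt_of_le_of_lt ((le_max_right _ _).trans (le_max_right _ _)) hn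
  have hn0 : (0 : ℝ) < n := lt_of_le_of_lt (by positivity) hn1
  have hnc : (n : ℂ) ≠ 0 := by exact_mod_cast hn0.ne'
  set θ : ℝ := -t / n with hθ
  have hθ1 : |θ| = |t| / n := by rw [hθ, abs_div, abs_neg, abs_of_pos hn0]
  have hθ2 : |θ| ≤ δ := by
    rw [hθ1, div_le_iff₀ hn0]
    rw [div_lt_iff₀ hδ] at hn2
    linarith
  set z : ℂ := t * Complex.I * w with hz
  set z' : ℂ := n * w + rot θ * (-(n * w)) with hz'
  have e1 : R.U z' θ X = R.U (n * w) 0 (R.U 0 θ X) := by
    conv_rhs => rw [← R.fix_neg (R.fix_nsmul h n)]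
    rw [R.comp, R.comp, rot_zero]
    simp [hz']
  have e2 : ‖R.U z' θ X - X‖ ≤ ε / 2 := by
    have e3 : R.U z' θ X - X = R.U (n * w) 0 (R.U 0 θ X - X) := by
      rw [map_sub, R.fix_nsmul h n, e1]
    rw [e3, R.norm_U]
    exact h1 0 θ (by simpa using hδ.le) hθ2
  have e4 : ‖z' - z‖ ≤ δ := by
    have h2 : ‖Complex.I * (θ : ℂ)‖ = |t| / n := by
      rw [norm_mul, Complex.norm_I, one_mul, Complex.norm_real, Real.norm_eq_abs, hθ1]
    have h3 := Complex.norm_exp_sub_one_sub_id_le (x := Complex.I * (θ : ℂ)) (by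
      rw [h2, div_le_one hn0]
      linarith)
    have e5 : z' - z = -(n * w) * (Complex.exp (Complex.I * (θ : ℂ)) - 1 - Complex.I * θ) := by
      rw [hz', hz, hθ]
      unfold rot
      push_cast
      field_simp
      ring
    rw [e5, norm_mul, norm_neg, norm_mul, Complex.norm_natCast]
    rw [h2] at h3
    rw [div_lt_iff₀ hδ] at hn3
    calc _ ≤ n * ‖w‖ * (|t| / n) ^ 2 := by gcongr
      _ = t ^ 2 * ‖w‖ / n := by rw [div_pow, sq_abs]; field_simp
      _ ≤ δ := by rw [div_le_iff₀ hn0]; linarith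
  have e6 : ‖R.U z' θ X - R.U z 0 X‖ ≤ ε / 2 := by
    have e7 : R.U z' θ X - R.U z 0 X = R.U z 0 (R.U (z' - z) θ X - X) := by
      rw [map_sub, R.comp, rot_zero]
      simp
    rw [e7, R.norm_U]
    exact h1 _ θ e4 hθ2
  have e8 : R.U z 0 X - X = (R.U z' θ X - X) - (R.U z' θ X - R.U z 0 X) := by abel
  rw [e8]
  linarith [norm_sub_le (R.U z' θ X - X) (R.U z' θ X - R.U z 0 X)]

/-- the Mautner phenomenon -/
theorem Rep.mautner {X : V} (hX : R.Cts X) {w : ℂ} (hw : w ≠ 0) (h : R.U w 0 X = X) (z : ℂ) :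
    R.U z 0 X = X := by
  have h1 := R.mautner1 hX h (z / w).im
  have h2 := R.mautner1 hX (R.mautner1 hX h 1) (-(z / w).re)
  have e : z = ((z / w).im * Complex.I * w) +
      ((-(z / w).re : ℝ) * Complex.I * ((1 : ℝ) * Complex.I * w)) := by
    have h3 := Complex.re_add_im (z / w)
    have h4 : z = z / w * w := by field_simp
    push_cast
    linear_combination h4 - w * h3 + ((z / w).re : ℂ) * w * Complex.I_mul_I
  rw [e, ← R.trans_add, h2, h1]

theorem Rep.inner_fix {X : V} (h : ∀ z, R.U z 0 X = X) (z : ℂ) (Y : V) :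
    inner ℝ X (R.U z 0 Y) = inner ℝ X Y := by
  have h1 : ‖X + R.U z 0 Y‖ = ‖X + Y‖ := by
    conv_lhs => rw [← h z]
    rw [← map_add, R.norm_U]
  have h2 := norm_add_sq_real X (R.U z 0 Y)
  have h3 := norm_add_sq_real X Y
  rw [h1, R.norm_U] at h2
  linarith

theorem galois {n : ℕ} (hn : Odd n) {p q r : ℂ} (hp : p ^ n = 1) (hq : q ^ n = 1)
    (hr : r ^ n = 1) (h : (p + 1) * (q + 1) = r) : (p ^ 2 + 1) * (q ^ 2 + 1) = r ^ 2 := by
  have hn0 : n ≠ 0 := by rintro rfl; simp at hn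
  have : NeZero n := ⟨hn0⟩
  have hζ := Complex.isPrimitiveRoot_exp n hn0
  set ζ := Complex.exp (2 * Real.pi * Complex.I / n)
  obtain ⟨i, -, rfl⟩ := hζ.eq_pow_of_pow_eq_one hp
  obtain ⟨j, -, rfl⟩ := hζ.eq_pow_of_pow_eq_one hq
  obtain ⟨k, -, rfl⟩ := hζ.eq_pow_of_pow_eq_one hr
  have hζ2 : IsPrimitiveRoot (ζ ^ 2) n := hζ.pow_of_coprime 2 (Nat.coprime_two_left.2 hn)
  set P : Polynomial ℚ := (Polynomial.X ^ i + 1) * (Polynomial.X ^ j + 1) - Polynomial.X ^ k
  have h1 : Polynomial.aeval ζ P = 0 := by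
    simp [P, h]
  have h2 := minpoly.dvd ℚ ζ h1
  have hpos : 0 < n := Nat.pos_of_ne_zero hn0
  rw [← Polynomial.cyclotomic_eq_minpoly_rat hζ hpos,
    Polynomial.cyclotomic_eq_minpoly_rat hζ2 hpos] at h2
  have h3 := Polynomial.aeval_eq_zero_of_dvd_aeval_eq_zero h2 (minpoly.aeval ℚ (ζ ^ 2))
  simp only [P, map_sub, map_mul, map_add, map_pow, Polynomial.aeval_X, map_one] at h3
  rw [← pow_mul, ← pow_mul, ← pow_mul, mul_comm i, mul_comm j, mul_comm k, pow_mul, pow_mul,
    pow_mul]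
  exact sub_eq_zero.1 h3

theorem closed_sub (A : AddSubgroup ℝ) (hA : IsClosed (A : Set ℝ)) (h2 : 2 * Real.pi ∈ A)
    (h1 : Real.pi ∉ A) : ∃ n : ℕ, Odd n ∧ ∀ θ ∈ A, rot θ ^ n = 1 := by
  rcases A.dense_or_cyclic with h | ⟨a, ha⟩
  · have := h.closure_eq
    rw [hA.closure_eq] at this
    exact (h1 (by rw [← SetLike.mem_coe, this]; trivial)).elim
  · rw [ha] at h2 h1
    obtain ⟨m, hm⟩ := AddSubgroup.mem_closure_singleton.1 h2
    rw [zsmul_eq_mul] at hm
    refine ⟨m.natAbs, ?_, fun θ hθ => ?_⟩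
    · rw [Int.natAbs_odd, ← Int.not_even_iff_odd]
      rintro ⟨k, rfl⟩
      apply h1
      refine AddSubgroup.mem_closure_singleton.2 ⟨k, ?_⟩
      rw [zsmul_eq_mul]
      push_cast at hm
      linarith
    · rw [ha] at hθ
      obtain ⟨k, rfl⟩ := AddSubgroup.mem_closure_singleton.1 hθ
      rw [← rot_nsmul, zsmul_eq_mul]
      rcases Int.natAbs_eq m with h | h
      · rw [← rot_int k, ← hm]
        congr 1
        have : (m : ℝ) = ((m.natAbs : ℤ) : ℝ) := by rw [← h]
        rw [this, Int.cast_natCast]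
        ring
      · rw [← rot_int (-k), ← hm]
        congr 1
        have : (m : ℝ) = ((-m.natAbs : ℤ) : ℝ) := by rw [← h]
        rw [this, Int.cast_neg, Int.cast_neg, Int.cast_natCast]
        ring

section
variable (e : ℂ → ℂ → V)
  (hU : ∀ v θ x y, R.U v θ (e x y) = e (v + rot θ * x) (v + rot θ * y))
  (hs : ∀ x y, e x y = e y x)
  (hc : Continuous fun p : ℂ × ℂ => e p.1 p.2)

/-- the basic relation between two edge directions -/
def Rel (e : ℂ → ℂ → V) (c : ℝ) (u w : ℂ) : Prop :=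
  e w (w + u) - e 0 u = c • (e u (u + w) - e 0 w)

include hU hc in
theorem cts_e (x y : ℂ) : R.Cts (e x y) := by
  intro ε hε
  have h1 : Continuous fun p : ℂ × ℝ => e (p.1 + rot p.2 * x) (p.1 + rot p.2 * y) := by
    have := rot_cont
    exact hc.comp (f := fun p : ℂ × ℝ => (p.1 + rot p.2 * x, p.1 + rot p.2 * y)) (by fun_prop)
  obtain ⟨δ, hδ, h2⟩ := Metric.continuousAt_iff.1 (h1.continuousAt (x := (0, 0))) ε hε
  refine ⟨δ / 2, by positivity, fun v θ hv hθ => ?_⟩
  have h3 := h2 (x := (v, θ)) (by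
    rw [Prod.dist_eq, max_lt_iff, dist_zero_right, dist_zero_right, Real.norm_eq_abs]
    constructor <;> simp only <;> linarith)
  simp only [rot_zero, one_mul, zero_add, dist_eq_norm] at h3
  rw [hU]
  exact h3.le

include hU in
theorem Rel.rotate {c : ℝ} {u w : ℂ} (h : Rel e c u w) (θ : ℝ) :
    Rel e c (rot θ * u) (rot θ * w) := by
  have h1 := congrArg (R.U 0 θ) h
  simp only [map_sub, map_smul, hU, zero_add, mul_zero, mul_add] at h1
  exact h1

theorem Rel.symm {c : ℝ} (hcc : c * c = 1) {u w : ℂ} (h : Rel e c u w) : Rel e c w u := by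
  unfold Rel at h ⊢
  rw [h, smul_smul, hcc, one_smul]

include hU hc in
theorem Rel.trans {c c' : ℝ} (hcc : c * c = 1) (hcc' : c' * c' = 1) {u w z : ℂ} (hw : w ≠ 0)
    (h : Rel e c u w) (h' : Rel e c' w z) : Rel e (c * c') u z := by
  have hT : ∀ v x y, R.U v 0 (e x y) = e (v + x) (v + y) := fun v x y => by
    rw [hU, rot_zero, one_mul, one_mul]
  have h'' := Rel.symm e hcc' h'
  unfold Rel at h h' h'' ⊢
  set X := e z (z + u) - e 0 u - (c * c') • (e u (u + z) - e 0 z) with hX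
  have hcts : R.Cts X := ((cts_e R e hU hc _ _).sub R (cts_e R e hU hc _ _)).sub R
    (((cts_e R e hU hc _ _).sub R (cts_e R e hU hc _ _)).smul R (by
      calc c * c' * (c * c') = (c * c) * (c' * c') := by ring
        _ = 1 := by rw [hcc, hcc', one_mul]))
  have hfix : R.U w 0 X = X := by
    have hT' : ∀ v y, e v (v + y) = R.U v 0 (e 0 y) := fun v y => by rw [hT, add_zero]
    have hcm : ∀ (a b : ℂ) (Y : V), R.U a 0 (R.U b 0 Y) = R.U b 0 (R.U a 0 Y) := fun a b Y => by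
      rw [R.trans_add, R.trans_add, add_comm]
    simp only [hT'] at h h'' hX
    have a1 := congrArg (R.U z 0) h
    have a2 := congrArg (R.U u 0) h''
    simp only [map_sub, map_smul] at a1 a2
    rw [hX]
    simp only [map_sub, map_smul]
    rw [hcm w z, hcm w u]
    rw [hcm z u] at a1
    have hc2 : (c * c' * c') = c := by rw [mul_assoc, hcc', mul_one]
    linear_combination (norm := module) a1 - h - (c * c') • a2 + (c * c') • h'' -
      hc2 • (R.U u 0 (R.U z 0 (e 0 w)) - R.U u 0 (e 0 w) - R.U z 0 (e 0 w) + e 0 w)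
  have hall := R.mautner hcts hw hfix
  have b1 := R.inner_fix hall z (e 0 u)
  have b2 := R.inner_fix hall u (e 0 z)
  rw [hT, add_zero] at b1 b2
  have h0 : inner ℝ X X = 0 := by
    conv_lhs => rw [hX]
    rw [← hX, inner_sub_right, inner_smul_right, inner_sub_right, inner_sub_right, b1, b2]
    ring
  exact sub_eq_zero.1 (inner_self_eq_zero.1 h0)

include hU hs in
theorem rel_tri (ρ : ℝ)
    (htri : ∀ x y z : ℂ, (‖x - y‖ = 1 ∨ ‖x - y‖ = ρ) → (‖y - z‖ = 1 ∨ ‖y - z‖ = ρ) →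
      (‖x - z‖ = 1 ∨ ‖x - z‖ = ρ) → e x y + e y z + e x z = 0) {u w : ℂ}
    (hu : ‖u‖ = 1 ∨ ‖u‖ = ρ) (hw : ‖w‖ = 1 ∨ ‖w‖ = ρ) (huw : ‖u - w‖ = 1 ∨ ‖u - w‖ = ρ) :
    Rel e (-1) u w := by
  have h1 := htri 0 u w (by simpa using hu) huw (by simpa using hw)
  have h2 := htri (u + w) u w (by simpa using hw) huw (by simpa using hu)
  unfold Rel
  rw [add_comm w u, hs w, hs u]
  linear_combination (norm := module) h2 - h1

include hU hs hc in
theorem edge_inv (ρ : ℝ) (h1 : 1 < ρ) (h2 : ρ ≤ 2)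
    (htri : ∀ x y z : ℂ, (‖x - y‖ = 1 ∨ ‖x - y‖ = ρ) → (‖y - z‖ = 1 ∨ ‖y - z‖ = ρ) →
      (‖x - z‖ = 1 ∨ ‖x - z‖ = ρ) → e x y + e y z + e x z = 0) (v : ℂ) (θ : ℝ) :
    e v (v + rot θ) = e 0 (rot θ) := by
  have hρ : 0 < ρ := by linarith
  have hρc : (ρ : ℂ) ≠ 0 := by exact_mod_cast hρ.ne'
  let A : AddSubgroup ℝ :=
    { carrier := {a | Rel e 1 1 (rot a)}
      zero_mem' := by simp [Rel, rot_zero]
      add_mem' := by
        intro a b ha hb
        have h3 := Rel.rotate R e hU hb a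
        rw [mul_one, ← rot_add] at h3
        simpa using Rel.trans R e hU hc (by norm_num) (by norm_num) (rot_ne a) ha h3
      neg_mem' := by
        intro a ha
        have h3 := Rel.rotate R e hU ha (-a)
        rw [mul_one, ← rot_add, neg_add_cancel, rot_zero] at h3
        exact Rel.symm e (by norm_num) h3 }
  have hA : IsClosed (A : Set ℝ) := by
    have := rot_cont
    have c1 : ∀ f g : ℝ → ℂ, Continuous f → Continuous g → Continuous fun a => e (f a) (g a) :=
      fun f g hf hg => hc.comp (f := fun a => (f a, g a)) (hf.prodMk hg)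
    exact isClosed_eq
      ((c1 _ _ rot_cont (by fun_prop)).sub continuous_const)
      (((c1 (fun _ => 1) _ continuous_const (by fun_prop)).sub
        (c1 (fun _ => 0) _ continuous_const rot_cont)).const_smul (1 : ℝ))
  have hnorm : ∀ a : ℝ, ‖1 - rot a * ρ‖ ^ 2 = 1 - 2 * ρ * Real.cos a + ρ ^ 2 := by
    intro a
    rw [← Complex.normSq_eq_norm_sq, rot_eq, Complex.normSq_apply]
    simp only [Complex.sub_re, Complex.one_re, Complex.mul_re, Complex.add_re, Complex.ofReal_re,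
      Complex.I_re, Complex.ofReal_im, Complex.I_im, Complex.sub_im, Complex.one_im,
      Complex.mul_im, Complex.add_im]
    linear_combination ρ ^ 2 * Real.cos_sq_add_sin_sq a
  have hrel : ∀ a : ℝ, (Real.cos a = 1 / (2 * ρ) ∨ Real.cos a = ρ / 2) →
      Rel e (-1) 1 (rot a * ρ) := by
    intro a ha
    apply rel_tri R e hU hs ρ htri (Or.inl norm_one)
    · right
      rw [norm_mul, rot_norm, one_mul, Complex.norm_real, Real.norm_eq_abs, abs_of_pos hρ]
    · have h3 := hnorm a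
      rcases ha with ha | ha
      · right
        rw [ha] at h3
        apply (pow_left_inj₀ (norm_nonneg _) hρ.le two_ne_zero).1
        rw [h3]
        field_simp
        ring
      · left
        rw [ha] at h3
        apply (pow_left_inj₀ (norm_nonneg _) zero_le_one two_ne_zero).1
        rw [h3]
        ring
  have hmem : ∀ a b : ℝ, (Real.cos a = 1 / (2 * ρ) ∨ Real.cos a = ρ / 2) →
      (Real.cos b = 1 / (2 * ρ) ∨ Real.cos b = ρ / 2) → a + b ∈ A := by
    intro a b ha hb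
    have h3 := Rel.rotate R e hU (hrel (-b) (by rwa [Real.cos_neg])) (a + b)
    rw [mul_one, ← mul_assoc, ← rot_add, add_neg_cancel_right] at h3
    have h4 := Rel.trans R e hU hc (by norm_num) (by norm_num)
      (mul_ne_zero (rot_ne a) hρc) (hrel a ha) (Rel.symm e (by norm_num) h3)
    show Rel e 1 1 (rot (a + b))
    simpa using h4
  have hpi : Real.pi ∈ A := by
    by_contra hcon
    obtain ⟨n, hn, h3⟩ := closed_sub A hA (by
      show Rel e 1 1 (rot (2 * Real.pi))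
      simp [Rel, rot_two_pi]) hcon
    set a := Real.arccos (1 / (2 * ρ))
    set b := Real.arccos (ρ / 2)
    have ha : Real.cos a = 1 / (2 * ρ) := Real.cos_arccos
      (le_trans (by norm_num) (by positivity : (0 : ℝ) ≤ 1 / (2 * ρ)))
      (by rw [div_le_one (by positivity)]; linarith)
    have hb : Real.cos b = ρ / 2 := Real.cos_arccos (by linarith) (by linarith)
    have key : ∀ t : ℝ, rot t * rot t + 1 = 2 * (Real.cos t : ℂ) * rot t := by
      intro t
      have h4 : ((Real.cos t : ℂ)) ^ 2 + (Real.sin t : ℂ) ^ 2 = 1 := by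
        exact_mod_cast Real.cos_sq_add_sin_sq t
      rw [rot_eq]
      linear_combination (Real.sin t : ℂ) ^ 2 * Complex.I_mul_I - h4
    have ka := key a
    have kb := key b
    rw [ha] at ka
    rw [hb] at kb
    push_cast at ka kb
    have ka' : ρ * (rot a * rot a + 1) = rot a := by
      rw [ka]
      field_simp
    have h4 := galois hn (h3 _ (hmem a a (Or.inl ha) (Or.inl ha)))
      (h3 _ (hmem b b (Or.inr hb) (Or.inr hb))) (h3 _ (hmem a b (Or.inl ha) (Or.inr hb)))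
      (by rw [rot_add, rot_add, rot_add, kb]
          linear_combination (rot b) * ka')
    rw [rot_add, rot_add, rot_add] at h4
    have h5 : (ρ : ℂ) ^ 2 * ((rot a * rot a) ^ 2 + 1) = (1 - 2 * ρ ^ 2) * rot a ^ 2 := by
      linear_combination (ρ * (rot a * rot a + 1) + rot a) * ka'
    have h6 : (rot b * rot b) ^ 2 + 1 = (ρ ^ 2 - 2) * rot b ^ 2 := by
      linear_combination (rot b * rot b + 1 + ρ * rot b) * kb
    have h7 : (rot a * rot b) ^ 2 * ((ρ : ℂ) ^ 2 - 1) ^ 2 = 0 := by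
      rw [h6] at h4
      linear_combination (1 / 2 : ℂ) * ((ρ ^ 2 - 2) * rot b ^ 2 * h5 - ρ ^ 2 * h4)
    have h8 : (ρ : ℂ) ^ 2 - 1 = 0 := by
      rcases mul_eq_zero.1 h7 with h | h
      · exact (mul_ne_zero (rot_ne a) (rot_ne b) (pow_eq_zero_iff two_ne_zero |>.1 h)).elim
      · exact pow_eq_zero_iff two_ne_zero |>.1 h
    have h9 : ρ ^ 2 - 1 = 0 := by exact_mod_cast h8
    nlinarith
  have h3 : Rel e 1 1 (-1) := by
    have : Rel e 1 1 (rot Real.pi) := hpi
    rwa [rot_pi] at this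
  unfold Rel at h3
  simp only [neg_add_cancel, add_neg_cancel, one_smul] at h3
  rw [hs 1 0, hs 0 (-1)] at h3
  have h4 : R.U (-1) 0 (e 0 1) = e 0 1 := by
    rw [hU, rot_zero]
    simp only [mul_zero, add_zero, mul_one, neg_add_cancel]
    linear_combination (norm := module) (1 / 2 : ℝ) • h3
  have h5 := R.mautner (cts_e R e hU hc 0 1) (by norm_num) h4 (rot (-θ) * v)
  have h6 := congrArg (R.U 0 θ) h5
  rw [R.comp, hU, hU, ← mul_assoc, ← rot_add] at h6
  simpa [rot_zero] using h6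

end

end Pool.Agent.H719Z.EG
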