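import Mathlib
import Pool.Agent.H719Z.EG.Mautner

set_option autoImplicit false
set_option maxHeartbeats 400000

namespace Pool.Agent.H719Z.EG
open Pool.Agent.H719Z.FKW

/-- configurations -/
def Cfg : Type := {τ : ℂ → ℝ // ∀ x, |τ x| ≤ 1}

/-- the action of rigid motions on configurations -/
noncomputable def act (v : ℂ) (θ : ℝ) (τ : Cfg) : Cfg :=
  ⟨fun x => τ.1 (v + rot θ * x), fun _ => τ.2 _⟩

theorem act_act (v : ℂ) (θ : ℝ) (w : ℂ) (φ : ℝ) (τ : Cfg) :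
    act w φ (act v θ τ) = act (v + rot θ * w) (θ + φ) τ := by
  apply Subtype.ext
  funext x
  show τ.1 _ = τ.1 _
  rw [rot_add]
  congr 1
  ring

theorem act_zero (τ : Cfg) : act 0 0 τ = τ := by
  apply Subtype.ext
  funext x
  show τ.1 _ = τ.1 _
  simp [rot_zero]

/-- invariant means -/
def Inv (E : Mean Cfg) : Prop :=
  ∀ (Φ : Cfg → ℝ) (v : ℂ) (θ : ℝ), Bd Φ → E.M (fun τ => Φ (act v θ τ)) = E.M Φ

/-- the two point function -/
def two (E : Mean Cfg) (v : ℂ) : ℝ := E.M (fun τ => τ.1 v * τ.1 0)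

theorem bd_ev (x : ℂ) : Bd (fun τ : Cfg => τ.1 x) := ⟨1, fun τ => τ.2 x⟩

theorem bd_ev2 (x y : ℂ) : Bd (fun τ : Cfg => τ.1 x * τ.1 y) := (bd_ev x).mul (bd_ev y)

theorem two_sub {E : Mean Cfg} (hE : Inv E) (x y : ℂ) :
    two E (x - y) = E.M (fun τ => τ.1 x * τ.1 y) := by
  unfold two
  rw [← hE _ y 0 (bd_ev2 _ _)]
  simp [act, rot_zero]

theorem two_sum {E : Mean Cfg} (hE : Inv E) {ι κ : Type} [Fintype ι] [Fintype κ] (x : ι → ℂ)
    (c : ι → ℝ) (y : κ → ℂ) (d : κ → ℝ) : ∑ i, ∑ j, c i * d j * two E (x i - y j) =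
      E.M (fun τ => (∑ i, c i * τ.1 (x i)) * ∑ j, d j * τ.1 (y j)) := by
  simp only [two_sub hE, ← E.smul _ _ (bd_ev2 _ _)]
  simp only [← E.sum _ (fun j => (bd_ev2 _ (y j)).cmul _)]
  rw [← E.sum _ (fun i => Bd.sum _ fun j => (bd_ev2 (x i) (y j)).cmul _)]
  congr 1
  funext a
  rw [Finset.sum_mul_sum]
  refine Finset.sum_congr rfl fun i _ => Finset.sum_congr rfl fun j _ => by ring

theorem two_rpd {E : Mean Cfg} (hE : Inv E) : RPD (two E) := by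
  refine ⟨rad_of_rot fun θ v => ?_, fun ι _ x c => ?_, fun v => E.abs_le fun τ => ?_⟩
  · unfold two
    rw [← hE _ 0 θ (bd_ev2 v 0)]
    simp [act]
  · rw [two_sum hE]
    have hb : Bd (fun τ : Cfg => ∑ i, c i * τ.1 (x i)) := Bd.sum _ fun i => (bd_ev _).cmul _
    exact E.nonneg _ (hb.mul hb) fun τ => mul_self_nonneg _
  · rw [abs_mul]
    exact mul_le_one₀ (τ.2 _) (abs_nonneg _) (τ.2 _)

theorem two_sqd {E : Mean Cfg} (hE : Inv E) (x y : ℂ) :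
    E.M (fun τ => (τ.1 x - τ.1 y) * (τ.1 x - τ.1 y)) = 2 * (two E 0 - two E (x - y)) := by
  have e : (fun τ : Cfg => (τ.1 x - τ.1 y) * (τ.1 x - τ.1 y)) =
      fun τ => (τ.1 x * τ.1 x + τ.1 y * τ.1 y) - 2 * (τ.1 x * τ.1 y) := by
    funext τ
    ring
  rw [e, E.sub ((bd_ev2 _ _).add (bd_ev2 _ _)) ((bd_ev2 _ _).cmul _),
    E.add _ _ (bd_ev2 _ _) (bd_ev2 _ _), E.smul _ _ (bd_ev2 _ _), ← two_sub hE, ← two_sub hE,
    ← two_sub hE, sub_self, sub_self]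
  ring

theorem tri_nonneg {a b c : ℝ} (ha : |a| ≤ 1) (hb : |b| ≤ 1) (hc : |c| ≤ 1) :
    0 ≤ a * b + b * c + a * c + 1 := by
  obtain ⟨a1, a2⟩ := abs_le.1 ha
  obtain ⟨b1, b2⟩ := abs_le.1 hb
  obtain ⟨c1, c2⟩ := abs_le.1 hc
  have h1 := mul_nonneg (mul_nonneg (sub_nonneg.2 a2) (sub_nonneg.2 b2)) (sub_nonneg.2 c2)
  have h2 := mul_nonneg (mul_nonneg (neg_le_iff_add_nonneg.1 a1) (neg_le_iff_add_nonneg.1 b1))
    (neg_le_iff_add_nonneg.1 c1)
  nlinarith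

/-- bounded functions of configurations -/
def bdSub : Submodule ℝ (Cfg → ℝ) where
  carrier := {Φ | Bd Φ}
  add_mem' := fun h1 h2 => Bd.add h1 h2
  zero_mem' := Bd.const 0
  smul_mem' := fun c _ h => Bd.cmul c h

/-- bounded functions with the inner product of a mean -/
def BF (_E : Mean Cfg) : Type := bdSub

instance (E : Mean Cfg) : AddCommGroup (BF E) := inferInstanceAs (AddCommGroup bdSub)
instance (E : Mean Cfg) : Module ℝ (BF E) := inferInstanceAs (Module ℝ bdSub)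

/-- the inner product -/
@[reducible] def core (E : Mean Cfg) : PreInnerProductSpace.Core ℝ (BF E) where
  inner Φ Ψ := E.M (fun τ => Φ.1 τ * Ψ.1 τ)
  conj_inner_symm Φ Ψ := by simp [mul_comm]
  re_inner_nonneg Φ := E.nonneg _ (Bd.mul Φ.2 Φ.2) fun τ => mul_self_nonneg _
  add_left Φ Ψ Θ := by
    rw [← E.add _ _ (Bd.mul Φ.2 Θ.2) (Bd.mul Ψ.2 Θ.2)]
    congr 1
    funext τ
    exact add_mul _ _ _
  smul_left Φ Ψ r := by
    rw [conj_trivial, ← E.smul _ _ (Bd.mul Φ.2 Ψ.2)]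
    congr 1
    funext τ
    exact mul_assoc _ _ _

noncomputable instance (E : Mean Cfg) : SeminormedAddCommGroup (BF E) :=
  @InnerProductSpace.Core.toSeminormedAddCommGroup ℝ (BF E) _ _ _ (core E)

noncomputable instance (E : Mean Cfg) : InnerProductSpace ℝ (BF E) :=
  InnerProductSpace.ofCore (core E)

theorem bf_norm {E : Mean Cfg} (Φ : BF E) : ‖Φ‖ ^ 2 = E.M (fun τ => Φ.1 τ * Φ.1 τ) :=
  (real_inner_self_eq_norm_sq Φ).symm

/-- the Koopman operators -/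
noncomputable def koop (E : Mean Cfg) (v : ℂ) (θ : ℝ) : BF E →ₗ[ℝ] BF E where
  toFun Φ := ⟨fun τ => Φ.1 (act v θ τ), Bd.comp Φ.2 _⟩
  map_add' _ _ := rfl
  map_smul' _ _ := rfl

theorem exists_rep {W : Type} [SeminormedAddCommGroup W] [InnerProductSpace ℝ W]
    (U : ℂ → ℝ → W →ₗ[ℝ] W) (h1 : ∀ v θ X, ‖U v θ X‖ = ‖X‖)
    (h2 : ∀ v θ w φ X, U v θ (U w φ X) = U (v + rot θ * w) (θ + φ) X) (h3 : ∀ X, U 0 0 X = X) :
    ∃ R : Rep (SeparationQuotient W), ∀ v θ X,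
      R.U v θ (SeparationQuotient.mk X) = SeparationQuotient.mk (U v θ X) := by
  let U' : ℂ → ℝ → W →L[ℝ] W := fun v θ => (U v θ).mkContinuous 1 fun X => by rw [h1, one_mul]
  let U'' : ℂ → ℝ → SeparationQuotient W →L[ℝ] SeparationQuotient W := fun v θ =>
    SeparationQuotient.liftCLM ((SeparationQuotient.mkCLM ℝ W).comp (U' v θ)) fun x y h =>
      SeparationQuotient.mk_eq_mk.2 (h.map (U' v θ).continuous)
  have key : ∀ v θ X, U'' v θ (SeparationQuotient.mk X) = SeparationQuotient.mk (U v θ X) :=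
    fun v θ X => rfl
  refine ⟨⟨fun v θ => (U'' v θ).toLinearMap, ?_, ?_, ?_⟩, key⟩
  · intro v θ X
    obtain ⟨X, rfl⟩ := SeparationQuotient.surjective_mk X
    exact h1 v θ X
  · intro v θ w φ X
    obtain ⟨X, rfl⟩ := SeparationQuotient.surjective_mk X
    exact congrArg SeparationQuotient.mk (h2 v θ w φ X)
  · intro X
    obtain ⟨X, rfl⟩ := SeparationQuotient.surjective_mk X
    exact congrArg SeparationQuotient.mk (h3 X)

/-- continuity at the origin -/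
def Cont0 (F : ℂ → ℝ) : Prop :=
  ∀ ε : ℝ, 0 < ε → ∃ δ : ℝ, 0 < δ ∧ ∀ v : ℂ, ‖v‖ ≤ δ → F 0 - F v ≤ ε

theorem partB {E : Mean Cfg} (hE : Inv E) (hc : Cont0 (two E)) {ρ : ℝ} (h1 : 1 < ρ) (h2 : ρ ≤ 2)
    (ha : two E 1 = -1 / 3) (hb : two E ρ = -1 / 3) : False := by
  have hF := two_rpd hE
  obtain ⟨R, hR⟩ := exists_rep (koop E) (fun v θ X => by
      apply (pow_left_inj₀ (norm_nonneg _) (norm_nonneg _) two_ne_zero).1
      rw [bf_norm, bf_norm]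
      exact hE (fun τ => X.1 τ * X.1 τ) v θ (Bd.mul X.2 X.2))
    (fun v θ w φ X => by
      apply Subtype.ext
      funext τ
      exact congrArg X.1 (act_act v θ w φ τ))
    (fun X => by
      apply Subtype.ext
      funext τ
      exact congrArg X.1 (act_zero τ))
  let e0 : ℂ → ℂ → BF E := fun x y =>
    ⟨fun τ => τ.1 x * τ.1 y + 1 / 3, (bd_ev2 x y).add (Bd.const _)⟩
  let p0 : ℂ → BF E := fun x => ⟨fun τ => τ.1 x, bd_ev x⟩
  let e : ℂ → ℂ → SeparationQuotient (BF E) := fun x y => SeparationQuotient.mk (e0 x y)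
  let p : ℂ → SeparationQuotient (BF E) := fun x => SeparationQuotient.mk (p0 x)
  have hU : ∀ v θ x y, R.U v θ (e x y) = e (v + rot θ * x) (v + rot θ * y) :=
    fun v θ x y => hR v θ _
  have hUp : ∀ v θ x, R.U v θ (p x) = p (v + rot θ * x) := fun v θ x => hR v θ _
  have hs : ∀ x y, e x y = e y x := fun x y => by
    show SeparationQuotient.mk _ = SeparationQuotient.mk _
    congr 1
    apply Subtype.ext
    funext τ
    show _ + _ = _ + _
    rw [mul_comm]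
  have hpd : ∀ x y, ‖p x - p y‖ ^ 2 = 2 * (two E 0 - two E (x - y)) := fun x y => by
    rw [← two_sqd hE]
    exact bf_norm (p0 x - p0 y)
  have hed : ∀ x y x' y', ‖e x y - e x' y'‖ ^ 2 ≤
      4 * (two E 0 - two E (x - x')) + 4 * (two E 0 - two E (y - y')) := fun x y x' y' => by
    have b1 := ((bd_ev x).sub (bd_ev x')).mul ((bd_ev x).sub (bd_ev x'))
    have b2 := ((bd_ev y).sub (bd_ev y')).mul ((bd_ev y).sub (bd_ev y'))
    have h3 : ‖e x y - e x' y'‖ ^ 2 = _ := bf_norm (e0 x y - e0 x' y')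
    have h4 := E.add _ _ (b1.cmul 2) (b2.cmul 2)
    rw [E.smul _ _ b1, E.smul _ _ b2, two_sqd hE, two_sqd hE] at h4
    have h5 := E.mono (Bd.mul (e0 x y - e0 x' y').2 (e0 x y - e0 x' y').2)
      ((b1.cmul 2).add (b2.cmul 2)) (fun τ => by
        show (τ.1 x * τ.1 y + 1 / 3 - (τ.1 x' * τ.1 y' + 1 / 3)) *
          (τ.1 x * τ.1 y + 1 / 3 - (τ.1 x' * τ.1 y' + 1 / 3)) ≤ _
        have a1 : τ.1 y ^ 2 ≤ 1 := by simpa using (sq_le_one_iff_abs_le_one _).2 (τ.2 y)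
        have a2 : τ.1 x' ^ 2 ≤ 1 := by simpa using (sq_le_one_iff_abs_le_one _).2 (τ.2 x')
        nlinarith [sq_nonneg (τ.1 y * (τ.1 x - τ.1 x') - τ.1 x' * (τ.1 y - τ.1 y')),
          mul_nonneg (sub_nonneg.2 a1) (sq_nonneg (τ.1 x - τ.1 x')),
          mul_nonneg (sub_nonneg.2 a2) (sq_nonneg (τ.1 y - τ.1 y'))])
    linarith
  have hce : Continuous fun q : ℂ × ℂ => e q.1 q.2 := by
    rw [Metric.continuous_iff]
    intro q ε hε
    obtain ⟨δ, hδ, h3⟩ := hc (ε ^ 2 / 16) (by positivity)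
    refine ⟨δ, hδ, fun q' hq => ?_⟩
    rw [Prod.dist_eq, max_lt_iff, dist_eq_norm, dist_eq_norm] at hq
    have h4 := hed q'.1 q'.2 q.1 q.2
    have h5 := h3 _ hq.1.le
    have h6 := h3 _ hq.2.le
    rw [dist_eq_norm]
    apply lt_of_pow_lt_pow_left₀ 2 hε.le
    nlinarith
  have hG : ∀ v : ℂ, (‖v‖ = 1 ∨ ‖v‖ = ρ) → two E v = -1 / 3 := by
    rintro v (h | h)
    · rw [← ha]
      exact hF.rad _ _ (by simpa using h)
    · rw [← hb]
      apply hF.rad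
      rw [h, Complex.norm_real, Real.norm_eq_abs, abs_of_pos (by linarith)]
  have htri : ∀ x y z : ℂ, (‖x - y‖ = 1 ∨ ‖x - y‖ = ρ) → (‖y - z‖ = 1 ∨ ‖y - z‖ = ρ) →
      (‖x - z‖ = 1 ∨ ‖x - z‖ = ρ) → e x y + e y z + e x z = 0 := by
    intro x y z a1 a2 a3
    have b1 := ((bd_ev2 x y).add (bd_ev2 y z)).add (bd_ev2 x z)
    have h3 : ‖e x y + e y z + e x z‖ ^ 2 = _ := bf_norm (e0 x y + e0 y z + e0 x z)
    have h4 := E.smul 4 _ (b1.add (Bd.const 1))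
    rw [E.add _ _ b1 (Bd.const 1), E.add _ _ ((bd_ev2 x y).add (bd_ev2 y z)) (bd_ev2 x z),
      E.add _ _ (bd_ev2 x y) (bd_ev2 y z), E.const, ← two_sub hE, ← two_sub hE, ← two_sub hE,
      hG _ a1, hG _ a2, hG _ a3] at h4
    have h5 := E.mono (Bd.mul (e0 x y + e0 y z + e0 x z).2 (e0 x y + e0 y z + e0 x z).2)
      ((b1.add (Bd.const 1)).cmul 4) (fun τ => by
        show (τ.1 x * τ.1 y + 1 / 3 + (τ.1 y * τ.1 z + 1 / 3) + (τ.1 x * τ.1 z + 1 / 3)) *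
          (τ.1 x * τ.1 y + 1 / 3 + (τ.1 y * τ.1 z + 1 / 3) + (τ.1 x * τ.1 z + 1 / 3)) ≤ _
        have c0 := tri_nonneg (τ.2 x) (τ.2 y) (τ.2 z)
        have c : ∀ a b, τ.1 a * τ.1 b ≤ 1 := fun a b => by
          refine (le_abs_self _).trans ?_
          rw [abs_mul]
          exact mul_le_one₀ (τ.2 _) (abs_nonneg _) (τ.2 _)
        nlinarith [c x y, c y z, c x z])
    rw [← norm_le_zero_iff]
    nlinarith [norm_nonneg (e x y + e y z + e x z)]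
  have hinv := edge_inv R e hU hs hce ρ h1 h2 htri
  set ω := rot (Real.pi / 3) with hω
  have hω1 : ω - 1 = rot (2 * (Real.pi / 3)) := by
    have h3 : 2 * (Real.pi / 3) = Real.pi - Real.pi / 3 := by ring
    rw [hω, h3, rot_eq, rot_eq, Real.cos_pi_sub, Real.sin_pi_sub, Real.cos_pi_div_three]
    push_cast
    ring
  have hA : e 1 (1 + 1) + e 1 (1 + ω) + e 1 ω = 0 := by
    have h3 := htri 0 1 ω (by simp) (by rw [norm_sub_rev, hω1, rot_norm]; simp)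
      (by simp [hω, rot_norm])
    have h4 := hinv 1 0
    rw [rot_zero] at h4
    rw [h4, hinv 1 (Real.pi / 3), ← h3]
    abel
  have hB : e 0 1 - e 1 (1 + 1) = 0 := by
    have h4 := hinv 1 0
    rw [rot_zero] at h4
    rw [h4, sub_self]
  have hC : p (1 + 1) = p 0 := by
    have h3 : ‖e 1 (1 + 1) + e 1 (1 + ω) + e 1 ω‖ ^ 2 = _ :=
      bf_norm (e0 1 (1 + 1) + e0 1 (1 + ω) + e0 1 ω)
    have h4 : ‖e 0 1 - e 1 (1 + 1)‖ ^ 2 = _ := bf_norm (e0 0 1 - e0 1 (1 + 1))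
    have h5 : ‖p (1 + 1) - p 0‖ ^ 2 = _ := bf_norm (p0 (1 + 1) - p0 0)
    rw [hA] at h3
    rw [hB] at h4
    have b1 := Bd.mul (e0 1 (1 + 1) + e0 1 (1 + ω) + e0 1 ω).2
      (e0 1 (1 + 1) + e0 1 (1 + ω) + e0 1 ω).2
    have b2 := Bd.mul (e0 0 1 - e0 1 (1 + 1)).2 (e0 0 1 - e0 1 (1 + 1)).2
    have h6 := E.add _ _ (b1.cmul 8) (b2.cmul 18)
    rw [E.smul _ _ b1, E.smul _ _ b2, ← h3, ← h4] at h6
    have h7 := E.mono (Bd.mul (p0 (1 + 1) - p0 0).2 (p0 (1 + 1) - p0 0).2)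
      ((b1.cmul 8).add (b2.cmul 18)) (fun τ => by
        show (τ.1 (1 + 1) - τ.1 0) * (τ.1 (1 + 1) - τ.1 0) ≤
          8 * ((τ.1 1 * τ.1 (1 + 1) + 1 / 3 + (τ.1 1 * τ.1 (1 + ω) + 1 / 3) +
            (τ.1 1 * τ.1 ω + 1 / 3)) * (τ.1 1 * τ.1 (1 + 1) + 1 / 3 +
            (τ.1 1 * τ.1 (1 + ω) + 1 / 3) + (τ.1 1 * τ.1 ω + 1 / 3))) +
          18 * ((τ.1 0 * τ.1 1 + 1 / 3 - (τ.1 1 * τ.1 (1 + 1) + 1 / 3)) *
            (τ.1 0 * τ.1 1 + 1 / 3 - (τ.1 1 * τ.1 (1 + 1) + 1 / 3)))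
        obtain ⟨a1, a2⟩ := abs_le.1 (τ.2 0)
        obtain ⟨c1, c2⟩ := abs_le.1 (τ.2 (1 + 1))
        obtain ⟨d1, d2⟩ := abs_le.1 (τ.2 (1 + ω))
        obtain ⟨f1, f2⟩ := abs_le.1 (τ.2 ω)
        generalize τ.1 0 = a at *
        generalize τ.1 (1 + 1) = c at *
        generalize τ.1 (1 + ω) = d at *
        generalize τ.1 ω = f at *
        generalize τ.1 1 = y at *
        have g1 : (c - a) ^ 2 ≤ 4 := by nlinarith
        have g2 : (c + d + f) ^ 2 ≤ 9 := by nlinarith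
        nlinarith [sq_nonneg ((y * (c + d + f) + 1) * (c - a) + (c + d + f) * (y * (c - a))),
          mul_nonneg (sub_nonneg.2 g1) (sq_nonneg (y * (c + d + f) + 1)),
          mul_nonneg (sub_nonneg.2 g2) (sq_nonneg (y * (c - a)))])
    rw [← sub_eq_zero, ← norm_le_zero_iff]
    simp only [norm_zero] at h6
    nlinarith [norm_nonneg (p (1 + 1) - p 0)]
  have hcts : R.Cts (p 0) := by
    intro ε hε
    obtain ⟨δ, hδ, h3⟩ := hc (ε ^ 2 / 2) (by positivity)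
    refine ⟨δ, hδ, fun v θ hv _ => ?_⟩
    rw [hUp, mul_zero, add_zero]
    have h4 := hpd v 0
    rw [sub_zero] at h4
    apply le_of_pow_le_pow_left₀ two_ne_zero hε.le
    linarith [h3 v hv]
  have hD := R.mautner hcts (w := 1 + 1) (by norm_num)
    (by rw [hUp, mul_zero, add_zero, hC]) 1
  rw [hUp, mul_zero, add_zero] at hD
  have h3 := hpd 1 0
  rw [hD, sub_self, sub_zero, ha, norm_zero] at h3
  have h4 := hF.psd Unit (fun _ => 0) (fun _ => 1)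
  simp at h4
  linarith

end Pool.Agent.H719Z.EG
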