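import Mathlib
import Pool.Agent.H719Z.EG.Koop

set_option autoImplicit false
set_option maxHeartbeats 400000
set_option linter.unusedVariables false

namespace Pool.Agent.H719Z.EG
open Pool.Agent.H719Z.FKW Filter Topology

theorem bd_mean {A B : Type} (k : A → Mean B) {Φ : B → ℝ} (h : Bd Φ) :
    Bd (fun a => (k a).M Φ) := by
  obtain ⟨C, hC⟩ := h
  exact ⟨C, fun a => (k a).abs_le hC⟩

/-- an average of means -/
def mbind {A B : Type} (m : Mean A) (k : A → Mean B) : Mean B where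
  M Φ := m.M (fun a => (k a).M Φ)
  add f g hf hg := by
    simp only [Mean.add _ f g hf hg]
    exact m.add _ _ (bd_mean k hf) (bd_mean k hg)
  smul c f hf := by
    simp only [Mean.smul _ c f hf]
    exact m.smul _ _ (bd_mean k hf)
  nonneg f hf h := m.nonneg _ (bd_mean k hf) fun a => (k a).nonneg f hf h
  one := by
    simp only [Mean.one]

/-- the image of a mean -/
def mmap {A B : Type} (m : Mean A) (g : A → B) : Mean B where
  M Φ := m.M (fun a => Φ (g a))
  add f g hf hg := m.add _ _ (hf.comp _) (hg.comp _)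
  smul c f hf := m.smul _ _ (hf.comp _)
  nonneg f hf h := m.nonneg _ (hf.comp _) fun a => h _
  one := m.one

theorem exists_limit_mean : ∃ L : Mean ℕ, ∀ (f : ℕ → ℝ) (c : ℝ), Bd f →
    (∀ᶠ n in atTop, f n ≤ c) → L.M f ≤ c := by
  let U : Ultrafilter ℕ := Ultrafilter.of atTop
  have hU : (U : Filter ℕ) ≤ atTop := Ultrafilter.of_le _
  have key : ∀ f : ℕ → ℝ, Bd f → Tendsto f U (𝓝 (limUnder U f)) := by
    rintro f ⟨C, hC⟩
    obtain ⟨x, -, hx⟩ := (isCompact_Icc (a := -C) (b := C)).ultrafilter_le_nhds (U.map f)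
      (by
        rw [le_principal_iff]
        exact Filter.mem_map.2 (Eventually.of_forall fun n => abs_le.1 (hC n)))
    exact tendsto_nhds_limUnder ⟨x, hx⟩
  refine ⟨⟨fun f => limUnder U f, fun f g hf hg => ?_, fun c f hf => ?_, fun f hf h => ?_, ?_⟩,
    fun f c hf h => ?_⟩
  · exact tendsto_nhds_unique (key _ (hf.add hg)) ((key f hf).add (key g hg))
  · exact tendsto_nhds_unique (key _ (hf.cmul c)) ((key f hf).const_mul c)
  · exact ge_of_tendsto' (key f hf) h
  · exact tendsto_nhds_unique (key _ (Bd.const 1)) tendsto_const_nhds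
  · exact le_of_tendsto (key f hf) (h.filter_mono hU)

/-- the infimum of the energy at a scale -/
noncomputable def lam (f : ℂ → ℝ) (s : ℝ) : ℝ :=
  sInf {e | ∃ (ι : Type) (_ : Fintype ι) (y : ι → ℂ) (W : ι → ℝ),
      (∀ i, 0 ≤ W i) ∧ ∑ i, W i = 1 ∧ (∀ i, ‖y i‖ ≤ s) ∧ e = E f y W y W}

theorem lam_le {f : ℂ → ℝ} (hf : RPD f) {s : ℝ} {ι : Type} [Fintype ι] (y : ι → ℂ) (W : ι → ℝ)
    (h0 : ∀ i, 0 ≤ W i) (h1 : ∑ i, W i = 1) (hy : ∀ i, ‖y i‖ ≤ s) : lam f s ≤ E f y W y W := by
  refine csInf_le ⟨0, ?_⟩ ⟨ι, inferInstance, y, W, h0, h1, hy, rfl⟩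
  rintro e ⟨ι, _, y, W, -, -, -, rfl⟩
  exact hf.E_nonneg y W

theorem lam_near (f : ℂ → ℝ) {s η : ℝ} (hs : 0 ≤ s) (hη : 0 < η) :
    ∃ (ι : Type) (_ : Fintype ι) (y : ι → ℂ) (W : ι → ℝ),
      (∀ i, 0 ≤ W i) ∧ ∑ i, W i = 1 ∧ (∀ i, ‖y i‖ ≤ s) ∧ E f y W y W ≤ lam f s + η := by
  obtain ⟨e, ⟨ι, _, y, W, h0, h1, hy, rfl⟩, he⟩ := exists_lt_of_csInf_lt
    (s := {e | ∃ (ι : Type) (_ : Fintype ι) (y : ι → ℂ) (W : ι → ℝ),
      (∀ i, 0 ≤ W i) ∧ ∑ i, W i = 1 ∧ (∀ i, ‖y i‖ ≤ s) ∧ e = E f y W y W})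
    ⟨_, Unit, inferInstance, fun _ => 0, fun _ => 1, fun _ => zero_le_one, by simp,
      fun _ => by simpa using hs, rfl⟩ (lt_add_of_pos_right (lam f s) hη)
  exact ⟨ι, inferInstance, y, W, h0, h1, hy, he.le⟩

theorem lam_le_one {f : ℂ → ℝ} (hf : RPD f) {s : ℝ} (hs : 0 ≤ s) : lam f s ≤ 1 :=
  (lam_le hf (fun _ : Unit => 0) (fun _ => 1) (fun _ => zero_le_one) (by simp)
    fun _ => by simpa using hs).trans
    (hf.E_le_one _ _ _ _ (fun _ => zero_le_one) (by simp) (fun _ => zero_le_one) (by simp))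

theorem lam_anti {f : ℂ → ℝ} (hf : RPD f) {s t : ℝ} (hs : 0 ≤ s) (hst : s ≤ t) :
    lam f t ≤ lam f s := by
  refine le_of_forall_pos_le_add fun η hη => ?_
  obtain ⟨ι, _, y, W, h0, h1, hy, h⟩ := lam_near f hs hη
  exact (lam_le hf y W h0 h1 fun i => (hy i).trans hst).trans h

theorem rpd_of_psd {g : ℂ → ℝ} (h1 : ∀ v w : ℂ, ‖v‖ = ‖w‖ → g v = g w)
    (h2 : ∀ (ι : Type) [Fintype ι] (x : ι → ℂ) (c : ι → ℝ),
      0 ≤ ∑ i, ∑ j, c i * c j * g (x i - x j)) (h3 : g 0 ≤ 1) : RPD g := by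
  refine ⟨h1, h2, fun v => ?_⟩
  have a1 := h2 (Fin 2) ![v, 0] ![1, 1]
  have a2 := h2 (Fin 2) ![v, 0] ![1, -1]
  simp only [Fin.sum_univ_two, Matrix.cons_val_zero, Matrix.cons_val_one, sub_self, sub_zero,
    zero_sub, h1 (-v) v (norm_neg v)] at a1 a2
  rw [abs_le]
  constructor <;> linarith

theorem smooth {E0 : Mean Cfg} (hE : Inv E0) {s : ℝ} {ι : Type} [Fintype ι] (y : ι → ℂ)
    (W : ι → ℝ) (hw0 : ∀ i, 0 ≤ W i) (hw1 : ∑ i, W i = 1) (hy : ∀ i, ‖y i‖ ≤ s) :
    ∃ E1 : Mean Cfg, Inv E1 ∧ RPD (fun v => two E0 v - two E1 v) ∧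
      E (fun v => two E0 v - two E1 v) y W y W ≤ E (two E0) y W y W - lam (two E0) (2 * s) ∧
      ∀ v : ℂ, two E1 0 - two E1 v ≤ 2 * (E (two E0) y W y W - lam (two E0) (s + ‖v‖)) := by
  obtain ⟨M, hM⟩ := exists_inv_mean ℝ
  have hf := two_rpd hE
  set f := two E0 with hfdef
  have hfB : Bd f := ⟨1, hf.bd⟩
  let sm : ℝ → Cfg → Cfg := fun φ τ => ⟨fun x => ∑ p, W p * τ.1 (x + rot φ * y p), fun x => by
    refine (Finset.abs_sum_le_sum_abs _ _).trans (le_trans ?_ hw1.le)
    refine Finset.sum_le_sum fun p _ => ?_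
    rw [abs_mul, abs_of_nonneg (hw0 p)]
    exact mul_le_of_le_one_right (hw0 p) (τ.2 _)⟩
  let E1 : Mean Cfg := mbind M fun φ => mmap E0 (sm φ)
  have hI : Inv E1 := by
    intro Φ v ψ hΦ
    have e1 : ∀ φ τ, act v ψ (sm (φ + ψ) τ) = sm φ (act v ψ τ) := by
      intro φ τ
      apply Subtype.ext
      funext x
      refine Finset.sum_congr rfl fun p _ => ?_
      show _ * τ.1 _ = _ * τ.1 _
      rw [rot_add]
      ring_nf
    show M.M (fun φ => E0.M (fun τ => Φ (act v ψ (sm φ τ)))) =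
      M.M (fun φ => E0.M (fun τ => Φ (sm φ τ)))
    rw [← hM (fun φ => E0.M (fun τ => Φ (act v ψ (sm φ τ)))) ψ
      (bd_mean (fun φ => mmap E0 fun τ => act v ψ (sm φ τ)) hΦ)]
    congr 1
    funext φ
    simp only [e1]
    exact hE (fun τ => Φ (sm φ τ)) v ψ (hΦ.comp _)
  set F : ℂ → ℝ → ℝ := fun v θ => ∑ p, ∑ q, W p * W q * f (v + rot θ * (y p - y q)) with hF
  have hFE : ∀ v θ, F v θ = E f (fun p => v + rot θ * y p) W (fun q => rot θ * y q) W := by
    intro v θ
    unfold E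
    refine Finset.sum_congr rfl fun p _ => Finset.sum_congr rfl fun q _ => ?_
    congr 2
    ring
  have htwo : ∀ v, two E1 v = M.M (F v) := by
    intro v
    show M.M (fun φ => E0.M (fun τ => (sm φ τ).1 v * (sm φ τ).1 0)) = _
    congr 1
    funext φ
    rw [hFE]
    unfold E
    rw [hfdef, two_sum hE]
    simp only [sm, zero_add]
  have hFB : ∀ v, Bd (F v) := fun v =>
    Bd.sum _ fun p => Bd.sum _ fun q => (hfB.comp _).cmul _
  have hF0 : ∀ v θ, E f (fun p => v + rot θ * y p) W (fun p => v + rot θ * y p) W =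
      E f y W y W := by
    intro v θ
    unfold E
    refine Finset.sum_congr rfl fun p _ => Finset.sum_congr rfl fun q _ => ?_
    congr 1
    apply hf.rad
    rw [add_sub_add_left_eq_sub, ← mul_sub, norm_mul, rot_norm, one_mul]
  have hsum : ∀ (κ : Type) [Fintype κ] (x : κ → ℂ) (a : κ → ℝ),
      ∑ i, ∑ j, a i * a j * (f (x i - x j) - M.M (F (x i - x j))) =
      ∑ i, ∑ j, a i * a j * f (x i - x j) -
        M.M (fun θ => ∑ i, ∑ j, a i * a j * F (x i - x j) θ) := by
    intro κ _ x a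
    rw [M.sum _ (fun i => Bd.sum _ fun j => (hFB _).cmul _)]
    simp only [M.sum _ (fun j => (hFB _).cmul _), M.smul _ _ (hFB _), mul_sub,
      Finset.sum_sub_distrib]
  have hswap : ∀ (κ : Type) [Fintype κ] (x : κ → ℂ) (a : κ → ℝ) (θ : ℝ),
      ∑ i, ∑ j, a i * a j * F (x i - x j) θ =
      ∑ p, ∑ q, W p * W q * ∑ i, ∑ j, a i * a j * f (x i - x j + rot θ * (y p - y q)) := by
    intro κ _ x a θ
    simp only [hF, Finset.mul_sum]
    rw [swap4]
    refine Finset.sum_congr rfl fun p _ => Finset.sum_congr rfl fun q _ =>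
      Finset.sum_congr rfl fun i _ => Finset.sum_congr rfl fun j _ => by ring
  have hf1 := two_rpd hI
  have h00 : two E1 0 = E f y W y W := by
    rw [htwo, ← M.const (E f y W y W)]
    congr 1
    funext θ
    rw [hFE, ← hF0 0 θ]
    simp
  refine ⟨E1, hI, rpd_of_psd ?_ ?_ ?_, ?_, fun v => ?_⟩
  · intro v w hvw
    rw [hf.rad v w hvw, hf1.rad v w hvw]
  · intro κ _ x a
    simp only [htwo]
    rw [hsum, sub_nonneg]
    apply M.le_const (Bd.sum _ fun i => Bd.sum _ fun j => (hFB _).cmul _)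
    intro θ
    rw [hswap]
    calc _ ≤ ∑ p, ∑ q, W p * W q * ∑ i, ∑ j, a i * a j * f (x i - x j) :=
          Finset.sum_le_sum fun p _ => Finset.sum_le_sum fun q _ =>
            mul_le_mul_of_nonneg_left (hf.shift_le x a _) (mul_nonneg (hw0 p) (hw0 q))
      _ = _ := by
          simp only [← Finset.sum_mul]
          rw [← Finset.sum_mul_sum, hw1]
          ring
  · have h1 := hf.E_nonneg y W
    have h2 := (abs_le.1 (hf.bd 0)).2
    rw [h00]
    linarith
  · unfold E
    simp only [htwo]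
    rw [hsum]
    have h1 : lam f (2 * s) ≤ M.M (fun θ => ∑ i, ∑ j, W i * W j * F (y i - y j) θ) := by
      apply M.const_le (Bd.sum _ fun i => Bd.sum _ fun j => (hFB _).cmul _)
      intro θ
      refine (lam_le hf (fun p : ι × ι => y p.1 + rot θ * y p.2) (fun p => W p.1 * W p.2)
        (fun p => mul_nonneg (hw0 _) (hw0 _)) ?_ ?_).trans (le_of_eq ?_)
      · rw [Fintype.sum_prod_type, ← Finset.sum_mul_sum, hw1, mul_one]
      · intro p
        refine (norm_add_le _ _).trans ?_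
        rw [norm_mul, rot_norm, one_mul]
        linarith [hy p.1, hy p.2]
      · unfold E
        rw [prod4]
        simp only [hF, Finset.mul_sum]
        refine Finset.sum_congr rfl fun i _ => Finset.sum_congr rfl fun j _ =>
          Finset.sum_congr rfl fun p _ => Finset.sum_congr rfl fun q _ => ?_
        rw [show y i - y j + rot θ * (y p - y q) =
          y i + rot θ * y p - (y j + rot θ * y q) by ring]
        ring
    linarith
  · have h1 : 2 * lam f (s + ‖v‖) - E f y W y W ≤ M.M (F v) := by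
      apply M.const_le (hFB v)
      intro θ
      have h2 := lam_le hf (s := s + ‖v‖)
        (Sum.elim (fun p => v + rot θ * y p) (fun q => rot θ * y q))
        (Sum.elim (fun p => 1 / 2 * W p) (fun p => 1 / 2 * W p))
        (by rintro (p | p) <;> exact mul_nonneg (by norm_num) (hw0 p))
        (by simp only [Fintype.sum_sum_type, Sum.elim_inl, Sum.elim_inr, ← Finset.mul_sum, hw1]
            norm_num)
        (by
          rintro (p | p)
          · refine (norm_add_le _ _).trans ?_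
            rw [norm_mul, rot_norm, one_mul]
            linarith [hy p]
          · show ‖rot θ * y p‖ ≤ _
            rw [norm_mul, rot_norm, one_mul]
            linarith [hy p, norm_nonneg v])
      have h3 := hF0 v θ
      have h4 := hF0 0 θ
      have h5 := hf.E_symm (fun p => v + rot θ * y p) W (fun q => rot θ * y q) W
      simp only [zero_add] at h4
      rw [hFE]
      have h6 : ∀ (a b : ι → ℂ), ∑ i, ∑ j, 1 / 2 * W i * (1 / 2 * W j) * f (a i - b j) =
          1 / 4 * E f a W b W := by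
        intro a b
        unfold E
        simp only [Finset.mul_sum]
        refine Finset.sum_congr rfl fun i _ => Finset.sum_congr rfl fun j _ => by ring
      unfold E at h2
      simp only [Fintype.sum_sum_type, Sum.elim_inl, Sum.elim_inr, Finset.sum_add_distrib,
        h6] at h2
      linarith
    rw [h00, htwo]
    linarith

theorem partA {E0 : Mean Cfg} (hE : Inv E0) :
    ∃ E1 : Mean Cfg, Inv E1 ∧ Cont0 (two E1) ∧ ∀ v, v ≠ 0 → two E1 v = two E0 v := by
  have hf := two_rpd hE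
  set f := two E0 with hfdef
  obtain ⟨L, hL⟩ := exists_limit_mean
  have hpos : ∀ n : ℕ, (0 : ℝ) < 1 / (n + 1) := fun n => by positivity
  choose ι hι y W hw0 hw1 hy hnear using fun n : ℕ => lam_near f (hpos n).le (hpos n)
  choose En hI hR hP hC using fun n : ℕ => smooth hE (y n) (W n) (hw0 n) (hw1 n) (hy n)
  set Λ := sSup ((lam f) '' Set.Ioi 0) with hΛ
  have hbdd : BddAbove ((lam f) '' Set.Ioi 0) := ⟨1, by
    rintro _ ⟨s, hs, rfl⟩
    exact lam_le_one hf (le_of_lt hs)⟩
  have hle : ∀ n, E f (y n) (W n) (y n) (W n) ≤ Λ + 1 / (n + 1) := fun n =>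
    (hnear n).trans (by linarith [le_csSup hbdd ⟨_, hpos n, rfl⟩])
  have hap : ∀ ε : ℝ, 0 < ε → ∃ s0 : ℝ, 0 < s0 ∧ ∀ s, 0 ≤ s → s ≤ s0 → Λ - ε ≤ lam f s := by
    intro ε hε
    obtain ⟨_, ⟨s0, hs0, rfl⟩, h⟩ := exists_lt_of_lt_csSup
      (s := (lam f) '' Set.Ioi 0) ⟨_, 1, by simp, rfl⟩ (sub_lt_self Λ hε)
    exact ⟨s0, hs0, fun s h0 h1 => h.le.trans (lam_anti hf h0 h1)⟩
  have hsmall : ∀ ε : ℝ, 0 < ε → ∀ᶠ n : ℕ in atTop, 1 / ((n : ℝ) + 1) ≤ ε := fun ε hε =>
    tendsto_one_div_add_atTop_nhds_zero_nat.eventually (ge_mem_nhds hε)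
  have hb : ∀ v, Bd (fun n => two (En n) v) := fun v => bd_mean En (bd_ev2 v 0)
  refine ⟨mbind L En, fun Φ v θ hΦ => ?_, fun ε hε => ?_, fun v hv => ?_⟩
  · show L.M _ = L.M _
    simp only [hI _ Φ v θ hΦ]
  · obtain ⟨s0, hs0, h⟩ := hap (ε / 4) (by positivity)
    refine ⟨s0 / 2, by positivity, fun v hv => ?_⟩
    show L.M (fun n => two (En n) 0) - L.M (fun n => two (En n) v) ≤ ε
    rw [← L.sub (hb 0) (hb v)]
    apply hL _ _ ((hb 0).sub (hb v))
    filter_upwards [hsmall (ε / 4) (by positivity), hsmall (s0 / 2) (by positivity)] with n h1 h2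
    have h3 := hC n v
    have h4 := h (1 / (n + 1) + ‖v‖) (by positivity) (by linarith)
    have h5 := hle n
    linarith
  · have key : ∀ ε : ℝ, 0 < ε → ∀ᶠ n : ℕ in atTop, |f v - two (En n) v| ≤ ε := by
      intro ε hε
      obtain ⟨δ, hδ, hdec⟩ := decay_pla hε
      obtain ⟨s0, hs0, h⟩ := hap (δ / 2) (by positivity)
      have ht : Tendsto (fun n : ℕ => ‖v‖ * ((n : ℝ) + 1)) atTop atTop :=
        (tendsto_atTop_add_const_right _ 1 tendsto_natCast_atTop_atTop).const_mul_atTop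
          (norm_pos_iff.2 hv)
      filter_upwards [hsmall (δ / 2) (by positivity), hsmall (s0 / 2) (by positivity),
        ht.eventually (hdec 1 zero_le_one)] with n h1 h2 h3
      have hn : ((n : ℂ) + 1) ≠ 0 := by exact_mod_cast Nat.succ_ne_zero n
      have hn' : ‖(n : ℂ) + 1‖ = n + 1 := by exact_mod_cast Complex.norm_natCast (n + 1)
      have hn0 : (0 : ℝ) < n + 1 := by positivity
      have h4 := h3 (fun z => f (z / (n + 1)) - two (En n) (z / (n + 1)))
        ⟨fun a b hab => (hR n).rad _ _ (by rw [norm_div, norm_div, hab]),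
          fun κ _ x c => by
            simpa only [sub_div] using (hR n).psd κ (fun i => x i / (n + 1)) c,
          fun z => (hR n).bd _⟩
        ⟨ι n, hι n, fun i => y n i * (n + 1), W n, hw0 n, hw1 n, fun i => by
            rw [norm_mul, hn', ← le_div_iff₀ hn0]
            exact hy n i, by
          have h5 := hP n
          have h6 := h (2 * (1 / (n + 1))) (by positivity) (by linarith)
          have h7 := hle n
          unfold E at h5 h7 ⊢
          simp only [← sub_mul, mul_div_cancel_right₀ _ hn]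
          linarith⟩
      have h5 := (hR n).rad (((‖v‖ * ((n : ℝ) + 1) : ℝ) : ℂ) / (n + 1)) v (by
        rw [norm_div, hn', Complex.norm_real, Real.norm_eq_abs, abs_of_nonneg (by positivity)]
        field_simp)
      rwa [h5] at h4
    show L.M (fun n => two (En n) v) = f v
    apply le_antisymm
    · refine le_of_forall_pos_le_add fun ε hε => hL _ _ (hb v) ?_
      filter_upwards [key ε hε] with n hn
      linarith [(abs_le.1 hn).1]
    · refine le_of_forall_pos_le_add fun ε hε => ?_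
      have h1 := hL _ (ε - f v) ((hb v).cmul (-1)) (by
        filter_upwards [key ε hε] with n hn
        linarith [(abs_le.1 hn).2])
      rw [L.smul _ _ (hb v)] at h1
      linarith

end Pool.Agent.H719Z.EG
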