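import Mathlib
import Pool.Agent.H719Z.EG.Bessel
import Pool.Agent.H719Z.EG.Limit

set_option autoImplicit false
set_option maxHeartbeats 400000

namespace Pool.Agent.H719Z.EG
open Pool.Agent.H719Z.FKW Real Filter Topology

/-- a real character of the square lattice -/
noncomputable def chi (a b : ℝ) (n : ℤ × ℤ) : ℝ := cos (a * n.1 + b * n.2)

theorem orth (m : Mean (ℝ × ℝ))
    (hm : ∀ (f : ℝ × ℝ → ℝ) (a : ℝ × ℝ), Bd f → m.M (fun x => f (x + a)) = m.M f) (n : ℤ × ℤ) :
    m.M (fun ξ => chi ξ.1 ξ.2 n) = if n = 0 then 1 else 0 := by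
  split_ifs with h
  · simp [h, chi, m.one]
  · obtain ⟨s, hs⟩ : ∃ s : ℝ × ℝ, s.1 * n.1 + s.2 * n.2 = π := by
      by_cases h1 : n.1 = 0
      · have h2 : (n.2 : ℝ) ≠ 0 := by
          exact_mod_cast fun h2 => h (Prod.ext h1 h2)
        exact ⟨(0, π / n.2), by field_simp; simp⟩
      · have h2 : (n.1 : ℝ) ≠ 0 := by exact_mod_cast h1
        exact ⟨(π / n.1, 0), by field_simp; simp⟩
    have hb : Bd (fun ξ : ℝ × ℝ => chi ξ.1 ξ.2 n) := bd_cos.comp _
    have h1 := hm _ s hb
    have e : (fun ξ : ℝ × ℝ => chi (ξ + s).1 (ξ + s).2 n) = fun ξ => -1 * chi ξ.1 ξ.2 n := by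
      funext ξ
      unfold chi
      rw [neg_one_mul, ← cos_add_pi, ← hs, Prod.fst_add, Prod.snd_add]
      congr 1
      ring
    rw [e, m.smul _ _ hb] at h1
    linarith

theorem count1 (N a : ℤ) (h : |a| ≤ N) :
    ∑ x ∈ Finset.Ico 0 N, ∑ y ∈ Finset.Ico 0 N, (if x - y - a = 0 then (1 : ℝ) else 0) =
      N - |(a : ℝ)| := by
  have h1 : ∀ x : ℤ, ∑ y ∈ Finset.Ico 0 N, (if x - y - a = 0 then (1 : ℝ) else 0) =
      if x ∈ Finset.Ico a (N + a) then 1 else 0 := by
    intro x
    have e : ∀ y : ℤ, (x - y - a = 0) ↔ (x - a = y) := fun y => by omega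
    simp only [e, Finset.sum_ite_eq, Finset.mem_Ico]
    congr 1
    apply propext
    omega
  simp only [h1]
  rw [Finset.sum_ite_mem, Finset.Ico_inter_Ico, Finset.sum_const, Int.card_Ico, nsmul_eq_mul,
    mul_one]
  have h2 : ((min N (N + a) - max 0 a).toNat : ℤ) = N - |a| := by
    rcases le_total 0 a with h3 | h3
    · rw [abs_of_nonneg h3] at h ⊢
      omega
    · rw [abs_of_nonpos h3] at h ⊢
      omega
  exact_mod_cast h2

/-- functionals given by finitely many point evaluations -/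
def FinRep (Λ : (ℤ × ℤ → ℝ) → ℝ) : Prop :=
  ∃ (κ : Type) (_ : Fintype κ) (z : κ → ℤ × ℤ) (p : κ → ℝ), ∀ Φ, Λ Φ = ∑ k, p k * Φ (z k)

theorem FinRep.ev (n : ℤ × ℤ) (c : ℝ) : FinRep (fun Φ => c * Φ n) :=
  ⟨Unit, inferInstance, fun _ => n, fun _ => c, fun Φ => by simp⟩

theorem FinRep.add {Λ Λ' : (ℤ × ℤ → ℝ) → ℝ} (h : FinRep Λ) (h' : FinRep Λ') :
    FinRep (fun Φ => Λ Φ + Λ' Φ) := by
  obtain ⟨κ, _, z, p, h⟩ := h
  obtain ⟨κ', _, z', p', h'⟩ := h'
  exact ⟨κ ⊕ κ', inferInstance, Sum.elim z z', Sum.elim p p', fun Φ => by simp [h, h']⟩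

theorem FinRep.sum {Λ : ℕ → (ℤ × ℤ → ℝ) → ℝ} (h : ∀ j, FinRep (Λ j)) (J : ℕ) :
    FinRep (fun Φ => ∑ j ∈ Finset.range J, Λ j Φ) := by
  induction J with
  | zero => simpa using FinRep.ev 0 0
  | succ J ih =>
    simp only [Finset.sum_range_succ]
    exact ih.add (h J)

theorem FinRep.mean (M : Mean ℝ) (z : ℝ → ℤ × ℤ) (T : Finset (ℤ × ℤ)) (hz : ∀ θ, z θ ∈ T)
    (c : ℝ) : FinRep (fun Φ => c * M.M (fun θ => Φ (z θ))) := by
  have hb : ∀ n : T, Bd (fun θ => if z θ = n then (1 : ℝ) else 0) :=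
    fun n => ⟨1, fun θ => by beta_reduce; split_ifs <;> simp⟩
  refine ⟨T, inferInstance, fun n => n, fun n => c * M.M (fun θ => if z θ = n then 1 else 0),
    fun Φ => ?_⟩
  have e : (fun θ => Φ (z θ)) = fun θ => ∑ n : T, Φ n * if z θ = n then (1 : ℝ) else 0 := by
    funext θ
    rw [Finset.sum_eq_single ⟨z θ, hz θ⟩]
    · simp
    · intro n _ hn
      rw [if_neg (fun h => hn (Subtype.ext h.symm)), mul_zero]
    · simp
  simp only
  rw [e, M.sum _ (fun n => (hb n).cmul _), Finset.mul_sum]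
  refine Finset.sum_congr rfl fun n _ => ?_
  rw [M.smul _ _ (hb n)]
  ring

theorem herglotz (G : ℤ × ℤ → ℝ)
    (hpsd : ∀ (ι : Type) [Fintype ι] (x : ι → ℤ × ℤ) (c : ι → ℝ),
      0 ≤ ∑ i, ∑ j, c i * c j * G (x i - x j))
    (hev : ∀ n, G (-n) = G n) {Λ : (ℤ × ℤ → ℝ) → ℝ} (hΛ : FinRep Λ)
    (hp : ∀ a b : ℝ, 0 ≤ Λ (chi a b)) : 0 ≤ Λ G := by
  obtain ⟨κ, _, z, p, hΛ⟩ := hΛ
  simp only [hΛ] at hp ⊢
  obtain ⟨m, hm⟩ := exists_inv_mean (ℝ × ℝ)
  have key : ∀ N : ℤ, (∀ k, |(z k).1| ≤ N ∧ |(z k).2| ≤ N) →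
      0 ≤ ∑ k, p k * G (z k) * ((N - |((z k).1 : ℝ)|) * (N - |((z k).2 : ℝ)|)) := by
    intro N hN
    set S := Finset.Ico 0 N ×ˢ Finset.Ico 0 N with hS
    have hpt : ∀ ξ : ℝ × ℝ,
        0 ≤ ∑ k, ∑ x ∈ S, ∑ y ∈ S, p k * G (x - y) * chi ξ.1 ξ.2 (x - y - z k) := by
      intro ξ
      let φ : ℤ × ℤ → ℝ := fun n => ξ.1 * n.1 + ξ.2 * n.2
      have hφ : ∀ x y, φ (x - y) = φ x - φ y := fun x y => by
        simp only [φ, Prod.fst_sub, Prod.snd_sub]
        push_cast
        ring
      have hD : 0 ≤ ∑ x ∈ S, ∑ y ∈ S, G (x - y) * cos (φ (x - y)) := by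
        have h1 := hpsd S (fun x => x) (fun x => cos (φ x))
        have h2 := hpsd S (fun x => x) (fun x => sin (φ x))
        have h3 := add_nonneg h1 h2
        simp only [← Finset.sum_add_distrib] at h3
        rw [← Finset.sum_coe_sort S]
        refine h3.trans (le_of_eq (Finset.sum_congr rfl fun x _ => ?_))
        rw [← Finset.sum_coe_sort S]
        refine Finset.sum_congr rfl fun y _ => ?_
        rw [hφ, cos_sub]
        ring
      have hs : ∑ x ∈ S, ∑ y ∈ S, G (x - y) * sin (φ (x - y)) = 0 := by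
        have h1 : ∑ x ∈ S, ∑ y ∈ S, G (x - y) * sin (φ (x - y)) =
            -∑ x ∈ S, ∑ y ∈ S, G (x - y) * sin (φ (x - y)) := by
          conv_lhs => rw [Finset.sum_comm]
          simp only [← Finset.sum_neg_distrib]
          refine Finset.sum_congr rfl fun x _ => Finset.sum_congr rfl fun y _ => ?_
          rw [← hev (y - x), neg_sub, hφ, hφ, ← neg_sub (φ x), sin_neg]
          ring
        linarith
      have h4 := mul_nonneg hD (hp ξ.1 ξ.2)
      have e : ∀ k, ∑ x ∈ S, ∑ y ∈ S, p k * G (x - y) * chi ξ.1 ξ.2 (x - y - z k) =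
          (∑ x ∈ S, ∑ y ∈ S, G (x - y) * cos (φ (x - y))) * (p k * chi ξ.1 ξ.2 (z k)) +
          (∑ x ∈ S, ∑ y ∈ S, G (x - y) * sin (φ (x - y))) * (p k * sin (φ (z k))) := by
        intro k
        simp only [Finset.sum_mul, ← Finset.sum_add_distrib]
        refine Finset.sum_congr rfl fun x _ => Finset.sum_congr rfl fun y _ => ?_
        have e1 : chi ξ.1 ξ.2 (x - y - z k) = cos (φ (x - y - z k)) := rfl
        have e2 : chi ξ.1 ξ.2 (z k) = cos (φ (z k)) := rfl
        rw [e1, e2, hφ (x - y), cos_sub]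
        ring
      simp only [e, hs, zero_mul, add_zero, ← Finset.mul_sum]
      exact h4
    have hb : ∀ (c : ℝ) (n : ℤ × ℤ), Bd (fun ξ : ℝ × ℝ => c * chi ξ.1 ξ.2 n) :=
      fun c n => (bd_cos.comp _).cmul c
    have h1 := m.nonneg _ (Bd.sum _ fun k => Bd.sum _ fun x => Bd.sum _ fun y => hb _ _) hpt
    rw [m.sum _ (fun k => Bd.sum _ fun x => Bd.sum _ fun y => hb _ _)] at h1
    refine h1.trans (le_of_eq (Finset.sum_congr rfl fun k _ => ?_))
    rw [m.sum _ (fun x => Bd.sum _ fun y => hb _ _), ← count1 N _ (hN k).1, ← count1 N _ (hN k).2,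
      Finset.sum_mul_sum, ← Finset.sum_product', Finset.mul_sum]
    refine Finset.sum_congr rfl fun x _ => ?_
    rw [m.sum _ (fun y => hb _ _), Finset.sum_mul_sum, ← Finset.sum_product', Finset.mul_sum]
    refine Finset.sum_congr rfl fun y _ => ?_
    rw [m.smul _ (fun ξ => chi ξ.1 ξ.2 (x - y - z k)) (bd_cos.comp _), orth m hm]
    by_cases h : x - y - z k = 0
    · have h1 := congrArg Prod.fst h
      have h2 := congrArg Prod.snd h
      simp only [Prod.fst_sub, Prod.snd_sub, Prod.fst_zero, Prod.snd_zero] at h1 h2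
      rw [if_pos h, if_pos h1, if_pos h2, sub_eq_zero.1 h, mul_one, mul_one, mul_one]
    · rw [if_neg h]
      by_cases h1 : x.1 - y.1 - (z k).1 = 0
      · have h2 : ¬ x.2 - y.2 - (z k).2 = 0 := fun h2 => h (Prod.ext h1 h2)
        rw [if_neg h2]
        simp
      · rw [if_neg h1]
        simp
  have ht : Tendsto (fun N : ℕ => ∑ k, p k * G (z k) *
      ((1 - |((z k).1 : ℝ)| / N) * (1 - |((z k).2 : ℝ)| / N))) atTop
      (𝓝 (∑ k, p k * G (z k) * ((1 - 0) * (1 - 0)))) :=
    tendsto_finsetSum _ fun k _ => (((tendsto_const_div_atTop_nhds_zero_nat _).const_sub 1).mul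
      ((tendsto_const_div_atTop_nhds_zero_nat _).const_sub 1)).const_mul _
  simp only [sub_zero, mul_one] at ht
  refine ge_of_tendsto ht ?_
  have hev1 : ∀ᶠ N : ℕ in atTop, ∀ k, |(z k).1| ≤ N ∧ |(z k).2| ≤ N := by
    rw [eventually_all]
    intro k
    exact (tendsto_natCast_atTop_atTop.eventually_ge_atTop _).and
      (tendsto_natCast_atTop_atTop.eventually_ge_atTop _)
  filter_upwards [hev1, eventually_gt_atTop 0] with N h1 h2
  have h3 : (0 : ℝ) < N := by exact_mod_cast h2
  have h4 := div_nonneg (key N h1) (sq_nonneg (N : ℝ))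
  rw [Finset.sum_div] at h4
  refine h4.trans (le_of_eq (Finset.sum_congr rfl fun k _ => ?_))
  push_cast
  field_simp

theorem reduce (a : ℝ) : ∃ k : ℤ, |a - k * (2 * π)| ≤ π := by
  refine ⟨round (a / (2 * π)), ?_⟩
  have h := abs_sub_round (a / (2 * π))
  have h2 : (0 : ℝ) < 2 * π := by positivity
  have e : a - round (a / (2 * π)) * (2 * π) = (a / (2 * π) - round (a / (2 * π))) * (2 * π) := by
    field_simp
  rw [e, abs_mul, abs_of_pos h2]
  nlinarith

theorem exists_cos_nonpos (a : ℝ) (h1 : 1 / 400 < |a|) (h2 : |a| ≤ π) :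
    ∃ j ∈ Finset.range 700, cos (a * ((j : ℤ) + 1 : ℤ)) ≤ 0 := by
  have h0 : 0 < |a| := by linarith
  set j := ⌊π / 2 / |a|⌋₊ with hj
  have h3 : (j : ℝ) ≤ π / 2 / |a| := Nat.floor_le (by positivity)
  have h4 : π / 2 / |a| < j + 1 := Nat.lt_floor_add_one _
  rw [le_div_iff₀ h0] at h3
  rw [div_lt_iff₀ h0] at h4
  refine ⟨j, Finset.mem_range.2 ?_, ?_⟩
  · have h5 : (j : ℝ) < 700 := by
      by_contra h6
      push Not at h6
      nlinarith [pi_lt_d2]
    exact_mod_cast h5
  · push_cast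
    rw [← cos_abs, abs_mul, abs_of_nonneg (by positivity : (0 : ℝ) ≤ j + 1)]
    apply cos_nonpos_of_pi_div_two_le_of_le <;> nlinarith

theorem partC {F : ℂ → ℝ} (hF : RPD F) (hc : Cont0 F) {ρ : ℝ} (hρ : 2 ≤ ρ)
    (ha : F 1 = -1 / 3) (hb : F ρ = -1 / 3) : False := by
  obtain ⟨M, hM⟩ := exists_inv_mean ℝ
  obtain ⟨δ, hδ, hη⟩ := hc (1 / 10 ^ 6) (by positivity)
  set h : ℝ := δ / 700 with hh
  have h0 : 0 < h := by positivity
  let pt : ℤ × ℤ → ℂ := fun n => (h * n.1 : ℝ) + (h * n.2 : ℝ) * Complex.I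
  have hpt : ∀ x y, pt (x - y) = pt x - pt y := fun x y => by
    simp only [pt, Prod.fst_sub, Prod.snd_sub]
    push_cast
    ring
  let z : ℝ → ℝ → ℤ × ℤ := fun r θ => (round (r / h * cos θ), round (r / h * sin θ))
  have hz : ∀ r, ∃ T : Finset (ℤ × ℤ), ∀ θ, z r θ ∈ T := by
    intro r
    obtain ⟨B, hB⟩ := exists_int_ge (|r / h| + 1)
    have h1 : ∀ x : ℝ, |x| ≤ 1 → round (r / h * x) ∈ Finset.Icc (-B) B := by
      intro x hx
      have h2 := abs_le.1 (abs_sub_round (r / h * x))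
      have h3 : |r / h * x| ≤ |r / h| := by
        rw [abs_mul]
        exact mul_le_of_le_one_right (abs_nonneg _) hx
      have h4 := abs_le.1 h3
      rw [Finset.mem_Icc]
      constructor
      · have : ((-B : ℤ) : ℝ) ≤ round (r / h * x) := by push_cast; linarith
        exact_mod_cast this
      · have : (round (r / h * x) : ℝ) ≤ B := by linarith
        exact_mod_cast this
    exact ⟨Finset.Icc (-B) B ×ˢ Finset.Icc (-B) B, fun θ =>
      Finset.mem_product.2 ⟨h1 _ (abs_cos_le_one θ), h1 _ (abs_sin_le_one θ)⟩⟩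
  obtain ⟨T1, hT1⟩ := hz 1
  obtain ⟨T2, hT2⟩ := hz ρ
  have hrep := (((FinRep.ev 0 (13 / 40)).add (FinRep.mean M _ T1 hT1 (1 / 4))).add
    (FinRep.mean M _ T2 hT2 (3 / 4))).add (FinRep.sum (fun j =>
      ((FinRep.ev 0 2).add (FinRep.ev ((j : ℤ) + 1, 0) (-1))).add
        (FinRep.ev (0, (j : ℤ) + 1) (-1))) 700)
  have hG := herglotz (fun n => F (pt n)) (fun ι _ x c => by
      simp only [hpt]
      exact hF.psd ι _ c) (fun n => by
      rw [← zero_sub, hpt, ← hF.neg, neg_sub]
      simp [pt]) hrep (by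
    intro a0 b0
    obtain ⟨k, ha'⟩ := reduce a0
    obtain ⟨l, hb'⟩ := reduce b0
    set a := a0 - k * (2 * π) with hadef
    set b := b0 - l * (2 * π) with hbdef
    have e : chi a0 b0 = chi a b := by
      funext n
      unfold chi
      rw [← cos_add_int_mul_two_pi (a * n.1 + b * n.2) (k * n.1 + l * n.2), hadef, hbdef]
      congr 1
      push_cast
      ring
    rw [e]
    have c0 : chi a b 0 = 1 := by simp [chi]
    have c1 : ∀ n, chi a b n ≤ 1 := fun n => cos_le_one _
    have cb : ∀ r, Bd (fun θ => chi a b (z r θ)) := fun r => bd_cos.comp _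
    have hq : ∀ j ∈ Finset.range 700, 0 ≤ 2 * chi a b 0 + -1 * chi a b ((j : ℤ) + 1, 0) +
        -1 * chi a b (0, (j : ℤ) + 1) := fun j _ => by
      linarith [c1 ((j : ℤ) + 1, 0), c1 (0, (j : ℤ) + 1)]
    by_cases hsm : |a| ≤ 1 / 400 ∧ |b| ≤ 1 / 400
    · set w : ℂ := a + b * Complex.I with hw
      have hw1 := rot_arg w
      rw [rot_eq] at hw1
      have hwa : a = ‖w‖ * cos (Complex.arg w) := by
        have := congrArg Complex.re hw1
        simp only [hw, Complex.add_re, Complex.ofReal_re, Complex.mul_re, Complex.I_re,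
          Complex.ofReal_im, Complex.I_im, Complex.add_im, Complex.mul_im] at this
        linarith
      have hwb : b = ‖w‖ * sin (Complex.arg w) := by
        have := congrArg Complex.im hw1
        simp only [hw, Complex.add_re, Complex.ofReal_re, Complex.mul_re, Complex.I_re,
          Complex.ofReal_im, Complex.I_im, Complex.add_im, Complex.mul_im] at this
        linarith
      have hJ : ∀ r : ℝ, J0 M (r * (‖w‖ / h)) - 1 / 400 ≤ M.M (fun θ => chi a b (z r θ)) := by
        intro r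
        have b1 : Bd (fun θ => cos (r * (‖w‖ / h) * cos θ)) := bd_cos.comp _
        rw [J0, ← hM _ (-Complex.arg w) b1, ← M.const (1 / 400), ← M.sub (b1.comp _) (Bd.const _)]
        apply M.mono ((b1.comp _).sub (Bd.const _)) (cb r)
        intro θ
        have e1 : r * (‖w‖ / h) * cos (θ + -Complex.arg w) =
            a * (r / h * cos θ) + b * (r / h * sin θ) := by
          rw [← sub_eq_add_neg, cos_sub]
          linear_combination (-(r / h * cos θ)) * hwa - (r / h * sin θ) * hwb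
        have h1 := abs_cos_sub_cos_le (a * (r / h * cos θ) + b * (r / h * sin θ))
          (a * (z r θ).1 + b * (z r θ).2)
        have h2 : |a * (r / h * cos θ) + b * (r / h * sin θ) - (a * (z r θ).1 + b * (z r θ).2)|
            ≤ 1 / 400 := by
          have e2 : a * (r / h * cos θ) + b * (r / h * sin θ) - (a * (z r θ).1 + b * (z r θ).2) =
              a * (r / h * cos θ - round (r / h * cos θ)) +
              b * (r / h * sin θ - round (r / h * sin θ)) := by
            simp only [z]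
            ring
          rw [e2]
          refine (abs_add_le _ _).trans ?_
          rw [abs_mul, abs_mul]
          have h3 := mul_le_mul hsm.1 (abs_sub_round (r / h * cos θ)) (abs_nonneg _) (by norm_num)
          have h4 := mul_le_mul hsm.2 (abs_sub_round (r / h * sin θ)) (abs_nonneg _) (by norm_num)
          linarith
        rw [e1]
        unfold chi
        linarith [(abs_le.1 (h1.trans h2)).2]
      have t0 : 0 ≤ ‖w‖ / h := by positivity
      have h1 := hJ 1
      have h2 := hJ ρ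
      rw [one_mul] at h1
      obtain ⟨p1, -, p3⟩ := bessel M hM _ t0
      obtain ⟨q1, q2, -⟩ := bessel M hM (ρ * (‖w‖ / h)) (by positivity)
      have h3 := Finset.sum_nonneg hq
      rcases le_total (47 / 10) (ρ * (‖w‖ / h)) with h4 | h4
      · linarith [q2 h4]
      · linarith [p3 (by nlinarith)]
    · have h1 : ∀ r, -1 ≤ M.M (fun θ => chi a b (z r θ)) :=
        fun r => M.const_le (cb r) fun θ => neg_one_le_cos _
      obtain ⟨j, hj, h2⟩ : ∃ j ∈ Finset.range 700, 1 ≤ 2 * chi a b 0 +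
          -1 * chi a b ((j : ℤ) + 1, 0) + -1 * chi a b (0, (j : ℤ) + 1) := by
        rw [not_and_or, not_le, not_le] at hsm
        rcases hsm with h3 | h3
        · obtain ⟨j, hj, h4⟩ := exists_cos_nonpos a h3 ha'
          refine ⟨j, hj, ?_⟩
          have : chi a b ((j : ℤ) + 1, 0) ≤ 0 := by simpa [chi] using h4
          linarith [c1 (0, (j : ℤ) + 1)]
        · obtain ⟨j, hj, h4⟩ := exists_cos_nonpos b h3 hb'
          refine ⟨j, hj, ?_⟩
          have : chi a b (0, (j : ℤ) + 1) ≤ 0 := by simpa [chi] using h4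
          linarith [c1 ((j : ℤ) + 1, 0)]
      have h3 := Finset.single_le_sum hq hj
      linarith [h1 1, h1 ρ])
  have p0 : pt 0 = 0 := by simp [pt]
  have hFB : Bd F := ⟨1, hF.bd⟩
  have hF0 := (abs_le.1 (hF.bd 0)).2
  have hnear : ∀ r : ℝ, M.M (fun θ => F (pt (z r θ))) ≤ F r + 3 / 2000 := by
    intro r
    apply M.le_const (hFB.comp _)
    intro θ
    have h1 : ‖pt (z r θ) - rot θ * r‖ ≤ δ := by
      refine (Complex.norm_le_abs_re_add_abs_im _).trans ?_
      have e1 : (pt (z r θ) - rot θ * r).re = -h * (r / h * cos θ - round (r / h * cos θ)) := by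
        simp only [pt, z, rot_eq, Complex.add_re, Complex.ofReal_re, Complex.mul_re, Complex.I_re,
          Complex.ofReal_im, Complex.I_im, Complex.add_im, Complex.mul_im, Complex.sub_re]
        field_simp
        ring
      have e2 : (pt (z r θ) - rot θ * r).im = -h * (r / h * sin θ - round (r / h * sin θ)) := by
        simp only [pt, z, rot_eq, Complex.add_re, Complex.ofReal_re, Complex.mul_re, Complex.I_re,
          Complex.ofReal_im, Complex.I_im, Complex.add_im, Complex.mul_im, Complex.sub_im]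
        field_simp
        ring
      rw [e1, e2, abs_mul, abs_mul, abs_neg, abs_of_pos h0]
      have h3 := mul_le_mul_of_nonneg_left (abs_sub_round (r / h * cos θ)) h0.le
      have h4 := mul_le_mul_of_nonneg_left (abs_sub_round (r / h * sin θ)) h0.le
      linarith
    have h2 := hF.near (fun _ : Unit => pt (z r θ)) (fun _ => rot θ * r) (fun _ => 1)
      (fun _ : Unit => 0) (fun _ => 1) (η := 3 / 2000) (by norm_num) (by simpa [E] using hF0)
      (by
        have := hη _ h1
        simp only [E, Finset.univ_unique, Finset.sum_singleton, sub_self, mul_one, one_mul]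
        linarith)
    simp only [E, Finset.univ_unique, Finset.sum_singleton, sub_zero, mul_one, one_mul] at h2
    rw [hF.rad (rot θ * r) r (by rw [norm_mul, rot_norm, one_mul])] at h2
    linarith [(abs_le.1 h2).2]
  have hsum : ∑ j ∈ Finset.range 700, (2 * F (pt 0) + -1 * F (pt ((j : ℤ) + 1, 0)) +
      -1 * F (pt (0, (j : ℤ) + 1))) ≤ ∑ _j ∈ Finset.range 700, (2 / 10 ^ 6 : ℝ) := by
    refine Finset.sum_le_sum fun j hj => ?_
    have hj' : (j : ℝ) + 1 ≤ 700 := by exact_mod_cast Finset.mem_range.1 hj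
    have h1 : |h * ((j : ℝ) + 1)| ≤ δ := by
      rw [abs_of_nonneg (by positivity)]
      nlinarith
    have h2 := hη (pt ((j : ℤ) + 1, 0)) (by
      simp only [pt, Int.cast_zero, mul_zero, Complex.ofReal_zero, zero_mul, add_zero,
        Complex.norm_real, Real.norm_eq_abs, Int.cast_add, Int.cast_natCast, Int.cast_one]
      exact h1)
    have h3 := hη (pt (0, (j : ℤ) + 1)) (by
      simp only [pt, Int.cast_zero, mul_zero, Complex.ofReal_zero, zero_add, norm_mul,
        Complex.norm_I, mul_one,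
        Complex.norm_real, Real.norm_eq_abs, Int.cast_add, Int.cast_natCast, Int.cast_one]
      simpa [abs_mul] using h1)
    rw [p0]
    linarith
  have h1 := hnear 1
  have h2 := hnear ρ
  simp only [Finset.sum_const, Finset.card_range, nsmul_eq_mul] at hsum
  beta_reduce at hG
  rw [p0] at hG hsum
  push_cast at h1 hsum
  linarith

end Pool.Agent.H719Z.EG
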