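import Mathlib
import Pool.Agent.H719Z.EG.Herg

set_option autoImplicit false
set_option maxHeartbeats 400000

namespace Pool.Agent.H719Z.EG
open Pool.Agent.H719Z.FKW

theorem core_ratio {E : Mean Cfg} (hE : Inv E) {ρ : ℝ} (hρ : 1 < ρ)
    (ha : two E 1 = -1 / 3) (hb : two E ρ = -1 / 3) : False := by
  obtain ⟨E1, hI, hc, h⟩ := partA hE
  have hρ0 : (ρ : ℂ) ≠ 0 := by exact_mod_cast (by linarith : ρ ≠ 0)
  rw [← h 1 one_ne_zero] at ha
  rw [← h ρ hρ0] at hb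
  rcases le_total ρ 2 with h2 | h2
  · exact partB hI hc hρ h2 ha hb
  · exact partC (two_rpd hI) hc h2 ha hb

theorem core_lt {E : Mean Cfg} (hE : Inv E) {d d' : ℝ} (hd : 0 < d) (hdd : d < d')
    (ha : two E d = -1 / 3) (hb : two E d' = -1 / 3) : False := by
  let sc : Cfg → Cfg := fun τ => ⟨fun x => τ.1 (d * x), fun _ => τ.2 _⟩
  have hdc : (d : ℂ) ≠ 0 := by exact_mod_cast hd.ne'
  have h2 : ∀ v, two (mmap E sc) v = two E (d * v) := fun v => by
    show E.M (fun τ => τ.1 (d * v) * τ.1 (d * 0)) = _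
    rw [mul_zero]
    rfl
  refine core_ratio (E := mmap E sc) (fun Φ v θ hΦ => ?_) (ρ := d' / d)
    ((one_lt_div hd).2 hdd) (by rw [h2, mul_one, ha]) (by
      rw [h2, ← hb]
      congr 1
      push_cast
      field_simp)
  have e : ∀ τ, act v θ (sc τ) = sc (act (d * v) θ τ) := fun τ => by
    apply Subtype.ext
    funext x
    show τ.1 _ = τ.1 _
    ring_nf
  show E.M (fun τ => Φ (act v θ (sc τ))) = E.M (fun τ => Φ (sc τ))
  simp only [e]
  exact hE (fun τ => Φ (sc τ)) _ θ (hΦ.comp _)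

theorem core_ne {E : Mean Cfg} (hE : Inv E) {d d' : ℝ} (hd : 0 < d) (hd' : 0 < d') (hdd : d ≠ d')
    (ha : two E d = -1 / 3) (hb : two E d' = -1 / 3) : False := by
  rcases lt_or_gt_of_ne hdd with h | h
  · exact core_lt hE hd h ha hb
  · exact core_lt hE hd' h hb ha

theorem two_tri {E : Mean Cfg} (hE : Inv E) (x y z : ℂ) :
    E.M (fun τ => τ.1 x * τ.1 y + τ.1 y * τ.1 z + τ.1 x * τ.1 z) =
      two E ‖x - y‖ + two E ‖y - z‖ + two E ‖x - z‖ := by
  have h : ∀ v : ℂ, two E ‖v‖ = two E v := fun v => (two_rpd hE).rad _ _ (by simp)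
  rw [E.add _ _ ((bd_ev2 x y).add (bd_ev2 y z)) (bd_ev2 x z),
    E.add _ _ (bd_ev2 x y) (bd_ev2 y z), ← two_sub hE, ← two_sub hE, ← two_sub hE, h, h, h]

theorem equi (r : ℝ) (hr : 0 ≤ r) :
    ∃ x y z : ℂ, ‖x - y‖ = r ∧ ‖y - z‖ = r ∧ ‖x - z‖ = r := by
  have hω1 : rot (Real.pi / 3) - 1 = rot (2 * (Real.pi / 3)) := by
    have h3 : 2 * (Real.pi / 3) = Real.pi - Real.pi / 3 := by ring
    rw [h3, rot_eq, rot_eq, Real.cos_pi_sub, Real.sin_pi_sub, Real.cos_pi_div_three]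
    push_cast
    ring
  refine ⟨0, r, rot (Real.pi / 3) * r, by simpa using hr, ?_, ?_⟩
  · rw [norm_sub_rev, ← sub_one_mul, hω1, norm_mul, rot_norm]
    simpa using hr
  · rw [zero_sub, norm_neg, norm_mul, rot_norm]
    simpa using hr

theorem two_ge {E : Mean Cfg} (hE : Inv E) (r : ℝ) (hr : 0 ≤ r) : -1 / 3 ≤ two E r := by
  obtain ⟨x, y, z, h1, h2, h3⟩ := equi r hr
  have h := two_tri hE x y z
  rw [h1, h2, h3] at h
  have h4 := E.const_le (((bd_ev2 x y).add (bd_ev2 y z)).add (bd_ev2 x z)) (c := -1)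
    fun τ => by linarith [tri_nonneg (τ.2 x) (τ.2 y) (τ.2 z)]
  linarith

/-- the invariant mean of a colouring -/
theorem exists_model (f : ℂ → Bool) : ∃ E : Mean Cfg, Inv E ∧ ∀ x y z : ℂ,
    (∀ x' y' z' : ℂ, ‖x' - y'‖ = ‖x - y‖ → ‖y' - z'‖ = ‖y - z‖ → ‖x' - z'‖ = ‖x - z‖ →
      ¬ (f x' = f y' ∧ f y' = f z')) →
    two E ‖x - y‖ + two E ‖y - z‖ + two E ‖x - z‖ = -1 := by
  obtain ⟨M, hM⟩ := exists_inv_mean ℝ
  obtain ⟨N, hN⟩ := exists_inv_mean ℂ
  let s : Cfg := ⟨fun x => if f x then 1 else -1, fun x => by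
    beta_reduce
    split_ifs <;> simp⟩
  let E : Mean Cfg := mbind M fun t => mmap N fun a => act a t s
  have hI : Inv E := by
    intro Φ v θ hΦ
    show M.M (fun t => N.M (fun a => Φ (act v θ (act a t s)))) =
      M.M (fun t => N.M (fun a => Φ (act a t s)))
    rw [← hM (fun t => N.M (fun a => Φ (act a t s))) θ
      (bd_mean (fun t => mmap N fun a => act a t s) hΦ)]
    congr 1
    funext t
    simp only [act_act]
    exact hN (fun a => Φ (act a (t + θ) s)) _ (hΦ.comp _)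
  refine ⟨E, hI, fun x y z h => ?_⟩
  rw [← two_tri hI]
  show M.M (fun t => N.M (fun a => s.1 (a + rot t * x) * s.1 (a + rot t * y) +
    s.1 (a + rot t * y) * s.1 (a + rot t * z) + s.1 (a + rot t * x) * s.1 (a + rot t * z))) = -1
  have e : ∀ (t : ℝ) (a : ℂ), s.1 (a + rot t * x) * s.1 (a + rot t * y) +
      s.1 (a + rot t * y) * s.1 (a + rot t * z) + s.1 (a + rot t * x) * s.1 (a + rot t * z)
      = -1 := by
    intro t a
    have hn : ∀ p q : ℂ, ‖a + rot t * p - (a + rot t * q)‖ = ‖p - q‖ := fun p q => by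
      rw [add_sub_add_left_eq_sub, ← mul_sub, norm_mul, rot_norm, one_mul]
    have h1 := h _ _ _ (hn x y) (hn y z) (hn x z)
    simp only [s]
    revert h1
    cases f (a + rot t * x) <;> cases f (a + rot t * y) <;> cases f (a + rot t * z) <;> simp
  simp only [e, Mean.const]

/-- every non-equilateral triangle has a monochromatic copy -/
theorem triangle (f : ℂ → Bool) (x y z : ℂ) (h1 : x ≠ y) (h2 : y ≠ z) (h3 : x ≠ z)
    (h : ¬ (‖x - y‖ = ‖y - z‖ ∧ ‖y - z‖ = ‖x - z‖)) :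
    ∃ x' y' z' : ℂ, ‖x' - y'‖ = ‖x - y‖ ∧ ‖y' - z'‖ = ‖y - z‖ ∧ ‖x' - z'‖ = ‖x - z‖ ∧
      f x' = f y' ∧ f y' = f z' := by
  by_contra hcon
  obtain ⟨E, hE, hm⟩ := exists_model f
  have h4 := hm x y z fun x' y' z' a b c d => hcon ⟨x', y', z', a, b, c, d⟩
  have g1 := two_ge hE _ (norm_nonneg (x - y))
  have g2 := two_ge hE _ (norm_nonneg (y - z))
  have g3 := two_ge hE _ (norm_nonneg (x - z))
  have p1 := norm_pos_iff.2 (sub_ne_zero.2 h1)
  have p2 := norm_pos_iff.2 (sub_ne_zero.2 h2)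
  have p3 := norm_pos_iff.2 (sub_ne_zero.2 h3)
  rcases not_and_or.1 h with h5 | h5
  · exact core_ne hE p1 p2 h5 (by linarith) (by linarith)
  · exact core_ne hE p2 p3 h5 (by linarith) (by linarith)

/-- at most one equilateral triangle is avoided -/
theorem equilateral (f : ℂ → Bool) (d d' : ℝ) (hd : 0 < d) (hd' : 0 < d') (hdd : d ≠ d')
    (h : ¬ ∃ x y z : ℂ, ‖x - y‖ = d ∧ ‖y - z‖ = d ∧ ‖x - z‖ = d ∧ f x = f y ∧ f y = f z) :
    ∃ x y z : ℂ, ‖x - y‖ = d' ∧ ‖y - z‖ = d' ∧ ‖x - z‖ = d' ∧ f x = f y ∧ f y = f z := by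
  by_contra hcon
  obtain ⟨E, hE, hm⟩ := exists_model f
  have key : ∀ r : ℝ, 0 < r → (¬ ∃ x y z : ℂ, ‖x - y‖ = r ∧ ‖y - z‖ = r ∧ ‖x - z‖ = r ∧
      f x = f y ∧ f y = f z) → two E r = -1 / 3 := by
    intro r hr h
    obtain ⟨x, y, z, h1, h2, h3⟩ := equi r hr.le
    have h4 := hm x y z fun x' y' z' a b c d =>
      h ⟨x', y', z', a.trans h1, b.trans h2, c.trans h3, d⟩
    rw [h1, h2, h3] at h4
    linarith
  exact core_ne hE hd hd' hdd (key d hd h) (key d' hd' hcon)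

end Pool.Agent.H719Z.EG
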